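import Mathlib

/-!
The pointwise inequality behind the Hardy-Leray inequality for divergence free fields.
-/

set_option autoImplicit false

namespace Pool.Agent.Q176.SH

open Finset

/-- `v · A X` -/
def bl (v : Fin 3 → ℝ) (A : Fin 3 → Fin 3 → ℝ) (X : Fin 3 → ℝ) : ℝ := ∑ i, ∑ j, v i * A i j * X j

/-- dot product -/
def dt (v X : Fin 3 → ℝ) : ℝ := ∑ i, v i * X i

/-- the symmetric field -/
noncomputable def Ns (v X : Fin 3 → ℝ) (α : ℝ) (i j : Fin 3) : ℝ :=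
  1 / 12 * (v i * X j + X i * v j) + 7 / 12 * α * (X i * X j)
    - (if i = j then α * dt X X / 4 else 0)

/-- the skew field -/
noncomputable def Na (v X : Fin 3 → ℝ) (i j : Fin 3) : ℝ := 5 / 12 * (v i * X j - X i * v j)

variable (A : Fin 3 → Fin 3 → ℝ) (v X : Fin 3 → ℝ) (α : ℝ)

theorem crossS (htr : ∑ i, A i i = 0) :
    ∑ i, ∑ j, ((A i j + A j i) / 2) * Ns v X α i j
      = 1 / 12 * (bl v A X + bl X A v) + 7 / 12 * α * bl X A X := by
  simp only [Fin.sum_univ_three, Ns, bl, dt] at htr ⊢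
  simp only [Fin.isValue, if_true, show ((0:Fin 3) = 1) = False by simp,
    show ((0:Fin 3) = 2) = False by simp, show ((1:Fin 3) = 0) = False by simp,
    show ((1:Fin 3) = 2) = False by simp, show ((2:Fin 3) = 0) = False by simp,
    show ((2:Fin 3) = 1) = False by simp, if_false]
  linear_combination (-(α * (X 0 * X 0 + X 1 * X 1 + X 2 * X 2) / 4)) * htr

theorem crossA : ∑ i, ∑ j, ((A i j - A j i) / 2) * Na v X i j
    = 5 / 12 * (bl v A X - bl X A v) := by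
  simp only [Fin.sum_univ_three, Na, bl]
  ring

theorem normS (hα : dt X v = α * dt X X) :
    ∑ i, ∑ j, Ns v X α i j ^ 2
      = 1 / 72 * (dt v v * dt X X) + 13 / 36 * (α * dt X X) ^ 2 := by
  simp only [Fin.sum_univ_three, Ns, dt] at hα ⊢
  simp only [Fin.isValue, if_true, show ((0:Fin 3) = 1) = False by simp,
    show ((0:Fin 3) = 2) = False by simp, show ((1:Fin 3) = 0) = False by simp,
    show ((1:Fin 3) = 2) = False by simp, show ((2:Fin 3) = 0) = False by simp,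
    show ((2:Fin 3) = 1) = False by simp, if_false]
  have h1 : X 0 * v 0 + X 1 * v 1 + X 2 * v 2 = α * (X 0 * X 0 + X 1 * X 1 + X 2 * X 2) := hα
  linear_combination (1 / 72 * (X 0 * v 0 + X 1 * v 1 + X 2 * v 2)
    + (1 / 72 + 7 / 36 - 1 / 12) * α * (X 0 * X 0 + X 1 * X 1 + X 2 * X 2)) * h1

theorem normA (hα : dt X v = α * dt X X) :
    ∑ i, ∑ j, Na v X i j ^ 2 = 25 / 72 * (dt v v * dt X X - (α * dt X X) ^ 2) := by
  rw [← hα]
  simp only [Fin.sum_univ_three, Na, dt]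
  ring

/-- the weight, with `X = x / |x|²` and `α = x · v` -/
noncomputable def Wq (q : ℝ) (vv XX α : ℝ) : ℝ :=
  (17 / 36 - q) * (vv * XX - (α * XX) ^ 2) + (1 / 4 + 9 / 8 * q) * (α * XX) ^ 2

theorem pointwise {q η : ℝ} (hq : 0 ≤ q) (hq2 : q ≤ 2) (hη : 0 ≤ η) (hη1 : η ≤ 1)
    (htr : ∑ i, A i i = 0) (hα : dt X v = α * dt X X) :
    η * Wq q (dt v v) (dt X X) α ≤
      (∑ i, ∑ j, A i j ^ 2) + (1 - q) * (∑ i, ∑ j, A i j * A j i)
      + η * ((1 + 2 * q) / 3 * bl v A X + (1 - 3 * q) / 3 * bl X A v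
          + 7 * (2 - q) / 6 * α * bl X A X
        + (1 + 2 * q) / 6 * (dt v v * dt X X)
        + (1 - 3 * q) / 3 * (dt v v * dt X X - 2 * (α * dt X X) ^ 2)
        + 7 * (2 - q) / 12 * (α * dt X X) ^ 2) := by
  have c1 := crossS A v X α htr
  have c2 := crossA A v X
  have n1 := normS v X α hα
  have n2 := normA v X α hα
  -- Cauchy-Schwarz for `|X|² |v|² ≥ (X·v)²`
  have hcs : 0 ≤ dt v v * dt X X - (α * dt X X) ^ 2 := by
    have : 0 ≤ ∑ i, ∑ j, Na v X i j ^ 2 := sum_nonneg fun i _ => sum_nonneg fun j _ => sq_nonneg _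
    rw [n2] at this
    linarith
  have s1 : 0 ≤ ∑ i, ∑ j, ((A i j + A j i) / 2 + η * Ns v X α i j) ^ 2 :=
    sum_nonneg fun i _ => sum_nonneg fun j _ => sq_nonneg _
  have s2 : 0 ≤ ∑ i, ∑ j, ((A i j - A j i) / 2 + η * Na v X i j) ^ 2 :=
    sum_nonneg fun i _ => sum_nonneg fun j _ => sq_nonneg _
  have e1 : ∑ i, ∑ j, ((A i j + A j i) / 2 + η * Ns v X α i j) ^ 2
      = (∑ i, ∑ j, ((A i j + A j i) / 2) ^ 2)
        + 2 * η * (∑ i, ∑ j, ((A i j + A j i) / 2) * Ns v X α i j)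
        + η ^ 2 * ∑ i, ∑ j, Ns v X α i j ^ 2 := by
    simp only [mul_sum, ← sum_add_distrib]
    exact sum_congr rfl fun i _ => sum_congr rfl fun j _ => by ring
  have e2 : ∑ i, ∑ j, ((A i j - A j i) / 2 + η * Na v X i j) ^ 2
      = (∑ i, ∑ j, ((A i j - A j i) / 2) ^ 2)
        + 2 * η * (∑ i, ∑ j, ((A i j - A j i) / 2) * Na v X i j)
        + η ^ 2 * ∑ i, ∑ j, Na v X i j ^ 2 := by
    simp only [mul_sum, ← sum_add_distrib]
    exact sum_congr rfl fun i _ => sum_congr rfl fun j _ => by ring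
  have e3 : ∑ i, ∑ j, ((A i j + A j i) / 2) ^ 2
      = 1 / 2 * ((∑ i, ∑ j, A i j ^ 2) + ∑ i, ∑ j, A i j * A j i) := by
    simp only [Fin.sum_univ_three]; ring
  have e4 : ∑ i, ∑ j, ((A i j - A j i) / 2) ^ 2
      = 1 / 2 * ((∑ i, ∑ j, A i j ^ 2) - ∑ i, ∑ j, A i j * A j i) := by
    simp only [Fin.sum_univ_three]; ring
  rw [e1, e3, c1, n1] at s1
  rw [e2, e4, c2, n2] at s2
  have k1 := mul_nonneg (show 0 ≤ 2 - q by linarith) s1
  have k2 := mul_nonneg hq s2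
  set a := dt v v * dt X X
  set r := (α * dt X X) ^ 2
  have hr : 0 ≤ r := sq_nonneg _
  -- the cost
  have k3 : 0 ≤ η * (1 - η) * ((2 - q) * (1 / 72 * a + 13 / 36 * r) + q * (25 / 72 * (a - r))) := by
    refine mul_nonneg (mul_nonneg hη (by linarith)) (add_nonneg (mul_nonneg (by linarith) ?_)
      (mul_nonneg hq ?_))
    · have : 0 ≤ a := by linarith
      linarith
    · linarith
  unfold Wq
  nlinarith [k1, k2, k3]

/-- nonnegativity outside of the balls -/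
theorem pointwise0 {q : ℝ} (hq : 0 ≤ q) (hq2 : q ≤ 2) :
    0 ≤ (∑ i, ∑ j, A i j ^ 2) + (1 - q) * (∑ i, ∑ j, A i j * A j i) := by
  have s1 : 0 ≤ ∑ i, ∑ j, ((A i j + A j i) / 2) ^ 2 :=
    sum_nonneg fun i _ => sum_nonneg fun j _ => sq_nonneg _
  have s2 : 0 ≤ ∑ i, ∑ j, ((A i j - A j i) / 2) ^ 2 :=
    sum_nonneg fun i _ => sum_nonneg fun j _ => sq_nonneg _
  have e3 : ∑ i, ∑ j, ((A i j + A j i) / 2) ^ 2
      = 1 / 2 * ((∑ i, ∑ j, A i j ^ 2) + ∑ i, ∑ j, A i j * A j i) := by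
    simp only [Fin.sum_univ_three]; ring
  have e4 : ∑ i, ∑ j, ((A i j - A j i) / 2) ^ 2
      = 1 / 2 * ((∑ i, ∑ j, A i j ^ 2) - ∑ i, ∑ j, A i j * A j i) := by
    simp only [Fin.sum_univ_three]; ring
  rw [e3] at s1
  rw [e4] at s2
  nlinarith [mul_nonneg (show 0 ≤ 2 - q by linarith) s1, mul_nonneg hq s2]

/-- the error terms of the cut-off -/
theorem errorterm {q η m R vv β : ℝ} (hq : 0 ≤ q) (hq2 : q ≤ 2) (hR : 0 < R)
    (hm : 0 ≤ m) (hm1 : m ≤ 1) (hvv : 0 ≤ vv) (hβ : 0 ≤ β) (hβ2 : β ≤ vv) :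
    -(20 / 3 / R ^ 2 * vv) ≤ 2 * (-2 * m) / R ^ 2 * ((1 + 2 * q) / 6 * vv
      + ((1 - 3 * q) / 3 + 7 * (2 - q) / 12) * β) := by
  have hR2 : 0 < R ^ 2 := by positivity
  have h1 : (1 + 2 * q) / 6 * vv + ((1 - 3 * q) / 3 + 7 * (2 - q) / 12) * β ≤ 5 / 3 * vv := by
    nlinarith [mul_nonneg hq hβ, mul_nonneg hq (sub_nonneg.2 hβ2), mul_nonneg (sub_nonneg.2 hq2) hβ,
      mul_nonneg (sub_nonneg.2 hq2) (sub_nonneg.2 hβ2), mul_nonneg hq hvv]
  have h2 : 4 * m * ((1 + 2 * q) / 6 * vv + ((1 - 3 * q) / 3 + 7 * (2 - q) / 12) * β)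
      ≤ 20 / 3 * vv := by
    calc 4 * m * ((1 + 2 * q) / 6 * vv + ((1 - 3 * q) / 3 + 7 * (2 - q) / 12) * β)
        ≤ 4 * m * (5 / 3 * vv) := mul_le_mul_of_nonneg_left h1 (by linarith)
      _ ≤ 4 * 1 * (5 / 3 * vv) := by gcongr
      _ = _ := by ring
  have e1 : 2 * (-2 * m) / R ^ 2 * ((1 + 2 * q) / 6 * vv
      + ((1 - 3 * q) / 3 + 7 * (2 - q) / 12) * β)
      = -(4 * m * ((1 + 2 * q) / 6 * vv + ((1 - 3 * q) / 3 + 7 * (2 - q) / 12) * β) / R ^ 2) := by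
    ring
  rw [e1, neg_le_neg_iff, show 20 / 3 / R ^ 2 * vv = 20 / 3 * vv / R ^ 2 by ring]
  exact div_le_div_of_nonneg_right h2 hR2.le

/-- the weight and the cut-off `(1 - s)²` -/
theorem weight_cut {q s vv XX α : ℝ} (hq : 0 ≤ q) (hq2 : q ≤ 2) (hs : 0 ≤ s) (hs1 : s ≤ 1)
    (hXX : 0 ≤ XX) (hvv : 0 ≤ vv) (hcs : (α * XX) ^ 2 ≤ vv * XX) :
    Wq q vv XX α - 5 * (s * (vv * XX)) ≤ (1 - s) ^ 2 * Wq q vv XX α := by
  have h0 : 0 ≤ vv * XX := mul_nonneg hvv hXX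
  have hr := sq_nonneg (α * XX)
  have h1 : Wq q vv XX α ≤ 5 / 2 * (vv * XX) := by
    unfold Wq
    nlinarith [mul_nonneg hq hr, mul_nonneg hq (sub_nonneg.2 hcs),
      mul_nonneg (sub_nonneg.2 hq2) hr, mul_nonneg (sub_nonneg.2 hq2) (sub_nonneg.2 hcs)]
  have h2 : 0 ≤ 1 - (1 - s) ^ 2 := by nlinarith
  have h3 : 1 - (1 - s) ^ 2 ≤ 2 * s := by nlinarith
  have h4 : (1 - (1 - s) ^ 2) * Wq q vv XX α ≤ 5 * (s * (vv * XX)) := by
    calc (1 - (1 - s) ^ 2) * Wq q vv XX α ≤ (1 - (1 - s) ^ 2) * (5 / 2 * (vv * XX)) :=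
          mul_le_mul_of_nonneg_left h1 h2
      _ ≤ 2 * s * (5 / 2 * (vv * XX)) := by gcongr
      _ = _ := by ring
  linarith

end Pool.Agent.Q176.SH
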