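import Pool.Agent.Q176.SH.Multi

/-!
The form inequalities for fields in `H¹_{0,σ}(Ω)`.
-/

set_option autoImplicit false
set_option maxHeartbeats 4000000

open MeasureTheory Set Filter Topology
open scoped InnerProductSpace ContDiff

namespace Pool.Agent.Q176.SH

open H772R2.NS Pool.Agent.TH340.FF

variable {Ω : Set E3} {φ : E3 → E3}

theorem hwS_zero (q R : ℝ) (P : Finset E3) (x : E3) : hwS q R P x 0 = 0 := by
  unfold hwS
  refine Finset.sum_eq_zero fun a _ => ?_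
  by_cases hx : x ∈ Metric.ball a R
  · rw [indicator_of_mem hx]
    simp [hw]
  · rw [indicator_of_notMem hx]

/-- the sum of the weights, with `if` -/
noncomputable def wellsE (q R : ℝ) (P : Finset E3) (x w : E3) : ℝ :=
  ∑ a ∈ P, if ‖x - a‖ < R then hw q (x - a) w else 0

theorem wellsE_eq (q R : ℝ) (P : Finset E3) (x w : E3) : wellsE q R P x w = hwS q R P x w := by
  unfold wellsE hwS
  refine Finset.sum_congr rfl fun a _ => ?_
  have h1 : x ∈ Metric.ball a R ↔ ‖x - a‖ < R := by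
    rw [Metric.mem_ball, dist_eq_norm]
  by_cases h : ‖x - a‖ < R
  · rw [indicator_of_mem (h1.2 h), if_pos h]
  · rw [indicator_of_notMem (fun hc => h (h1.1 hc)), if_neg h]

theorem test_zero (h : IsTest Ω φ) {x : E3} (hx : x ∉ Ω) : φ x = 0 :=
  image_eq_zero_of_notMem_tsupport fun hc => hx (h.supp hc)

theorem norm_int (φ : E3 → E3) : ∫ x, ‖φ x‖ ^ 2 = ∫ x, ∑ i, φ x i ^ 2 := by
  refine integral_congr_ae (Eventually.of_forall fun x => ?_)
  simp only
  rw [← dt_self]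
  exact Finset.sum_congr rfl fun i _ => by ring

/-- **Form inequality**, strain. -/
theorem form_strain (hΩ : MeasurableSet Ω) {κ B q R : ℝ} (hκ : 0 ≤ κ) (hq : 0 ≤ q)
    (hq2 : q ≤ 2) (hR : 0 < R) {P : Finset E3}
    (hP : ∀ a ∈ P, ∀ b ∈ P, a ≠ b → 2 * R ≤ dist a b) {G : L2M Ω}
    (hG : ∀ᵐ x ∂(volume.restrict Ω), ∀ w : E3,
      -(κ * hwS q R P x w) - B * ‖w‖ ^ 2 ≤ ⟪(G : E3 → M3) x, tens w⟫_ℝ)
    {p : L2V Ω × L2M Ω} (hpW : p ∈ graphW Ω) :
    -⟪tensL p.1, G⟫_ℝ ≤ κ * ‖p.2‖ ^ 2 + (B + 12 * κ / R ^ 2) * ‖p.1‖ ^ 2 := by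
  have key := graphW_le (fun p => -⟪tensL p.1, G⟫_ℝ - κ * ‖p.2‖ ^ 2
    - (B + 12 * κ / R ^ 2) * ‖p.1‖ ^ 2) (form_cont hΩ G _ _) (fun p hp => ?_) hpW
  · linarith
  have hpW := preW_le hp
  obtain ⟨φ, h1, h2, h3⟩ := hp
  have hh := mul_le_mul_of_nonneg_left (hardy h1 hq hq2 hR hP) hκ
  rw [norm_test1 h1 h2, norm_test2 h1 h3]
  have i1 : Integrable fun x => κ * hwS q R P x (φ x) := (hwS_int h1 hq hq2 hR P).const_mul _
  have i2 : Integrable fun x => B * ‖φ x‖ ^ 2 := (int_f4' h1).const_mul _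
  have e1 : -⟪tensL p.1, G⟫_ℝ ≤ ∫ x in Ω, (κ * hwS q R P x (φ x) + B * ‖φ x‖ ^ 2) := by
    rw [real_inner_comm, L2.inner_def, ← integral_neg]
    refine integral_mono_ae ?_ (i1.add i2).integrableOn ?_
    · exact (L2.integrable_inner G (tensL p.1)).neg
    · filter_upwards [hG, tensL_coe hΩ hpW, h2] with x a b c
      have := a (φ x)
      rw [b, c]
      linarith
  have e2 : ∫ x in Ω, (κ * hwS q R P x (φ x) + B * ‖φ x‖ ^ 2)
      = ∫ x, (κ * hwS q R P x (φ x) + B * ‖φ x‖ ^ 2) :=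
    setIntegral_eq_integral_of_forall_compl_eq_zero fun x hx => by
      rw [test_zero h1 hx, hwS_zero]
      simp
  rw [e2, integral_add i1 i2, integral_const_mul, integral_const_mul, norm_int] at e1
  have e3 : κ * (12 / R ^ 2 * ∫ x, ∑ i, φ x i ^ 2) = 12 * κ / R ^ 2 * ∫ x, ∑ i, φ x i ^ 2 := by
    ring
  rw [mul_add, e3] at hh
  linarith

/-- A rigid velocity field -/
def rigid (m : E3) (S : E3 →L[ℝ] E3) (x : E3) : E3 := m + S x

theorem rigid_smooth (m : E3) (S : E3 →L[ℝ] E3) : ContDiff ℝ ∞ (rigid m S) :=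
  contDiff_const.add S.contDiff

theorem jac_rigid (m : E3) {S : E3 →L[ℝ] E3} (hS : ∀ w, ⟪w, S w⟫_ℝ = 0) (x : E3) (i j : Fin 3) :
    jac (rigid m S) x (i, j) = -jac (rigid m S) x (j, i) := by
  have h1 : fderiv ℝ (rigid m S) x = S := by
    have : HasFDerivAt (rigid m S) S x := S.hasFDerivAt.const_add m
    exact this.fderiv
  rw [jac_apply, jac_apply, h1]
  have h2 : ∀ v w : E3, ⟪v, S w⟫_ℝ = -⟪w, S v⟫_ℝ := by
    intro v w
    have := hS (v + w)
    rw [map_add, inner_add_left, inner_add_right, inner_add_right, hS v, hS w] at this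
    linarith
  have h3 : ∀ (v : E3) (k : Fin 3), ⟪ev k, v⟫_ℝ = v k := by
    intro v k
    rw [inner_E3]
    simp [ev]
  show (S (ev j)) i = -(S (ev i)) j
  rw [← h3, ← h3, h2]

theorem rigid_f1 (h : IsTest Ω φ) (m : E3) {S : E3 →L[ℝ] E3} (hS : ∀ w, ⟪w, S w⟫_ℝ = 0) :
    ∫ x, ∑ i, rigid m S x i * f1 φ x i = 0 := by
  rw [smooth_test h (rigid_smooth m S)]
  have : ∀ x, ∑ i, ∑ j, φ x i * φ x j * jac (rigid m S) x (i, j) = 0 := by
    intro x
    have h1 : ∑ i, ∑ j, φ x i * φ x j * jac (rigid m S) x (i, j)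
        = -∑ i, ∑ j, φ x i * φ x j * jac (rigid m S) x (i, j) := by
      conv_lhs => rw [Finset.sum_comm]
      rw [← Finset.sum_neg_distrib]
      refine Finset.sum_congr rfl fun i _ => ?_
      rw [← Finset.sum_neg_distrib]
      refine Finset.sum_congr rfl fun j _ => ?_
      rw [jac_rigid m hS x j i]
      ring
    linarith
  simp [this]

theorem rigid_f2 (h : IsTest Ω φ) (m : E3) {S : E3 →L[ℝ] E3} (hS : ∀ w, ⟪w, S w⟫_ℝ = 0) :
    ∫ x, ∑ i, rigid m S x i * f2 φ x i = 0 := by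
  have hφ := h.smooth
  have hψ := rigid_smooth m S
  have hg : ∀ j, ContDiff ℝ 1 fun x => φ x j * φ x j := fun j =>
    ((contDiff_coord hφ j).mul (contDiff_coord hφ j)).of_le (by exact_mod_cast le_top)
  have hgc : ∀ j, HasCompactSupport fun x => φ x j * φ x j := fun j =>
    (hasCompactSupport_coord h.compact j).mul_right
  have e1 : ∀ x, ∑ i, rigid m S x i * f2 φ x i
      = ∑ j, 1 / 2 * ∑ i, rigid m S x i * fderiv ℝ (fun x => φ x j * φ x j) x (ev i) := by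
    intro x
    simp_rw [fderiv_mul_coord hφ]
    simp only [f2, Finset.mul_sum]
    rw [Finset.sum_comm]
    refine Finset.sum_congr rfl fun j _ => Finset.sum_congr rfl fun i _ => ?_
    ring
  have i1 : ∀ i j, Integrable fun x =>
      rigid m S x i * fderiv ℝ (fun x => φ x j * φ x j) x (ev i) := fun i j => by
    have hdg : Continuous fun x => fderiv ℝ (fun x => φ x j * φ x j) x (ev i) :=
      ((hg j).continuous_fderiv (by norm_num)).clm_apply continuous_const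
    have hdgc : HasCompactSupport fun x => fderiv ℝ (fun x => φ x j * φ x j) x (ev i) :=
      ((hgc j).fderiv (𝕜 := ℝ)).comp_left (g := fun L : E3 →L[ℝ] ℝ => L (ev i)) (by simp)
    exact ((contDiff_coord hψ i).continuous.mul hdg).integrable_of_hasCompactSupport hdgc.mul_left
  simp_rw [e1]
  rw [integral_finsetSum _ fun j _ => (integrable_finsetSum _ fun i _ => i1 i j).const_mul _]
  refine Finset.sum_eq_zero fun j _ => ?_
  rw [integral_const_mul, integral_finsetSum _ fun i _ => i1 i j]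
  have e2 : ∀ i, ∫ x, rigid m S x i * fderiv ℝ (fun x => φ x j * φ x j) x (ev i)
      = -∫ x, jac (rigid m S) x (i, i) * (φ x j * φ x j) := fun i => ibp_prod hψ (hg j) (hgc j) i i
  have e3 : ∀ x (i : Fin 3), jac (rigid m S) x (i, i) = 0 := fun x i => by
    have := jac_rigid m hS x i i
    linarith
  simp_rw [e2, e3]
  simp

/-- the pointwise inequality for the velocity -/
theorem speed_pt {ν : ℝ} (hν : 0 < ν) (V v : Fin 3 → ℝ) (A : Fin 3 → Fin 3 → ℝ) :
    (∑ i, V i * ∑ j, v j * A i j) - (∑ i, V i * ∑ j, v j * A j i)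
      ≤ ν / 2 * ((∑ i, ∑ j, A i j ^ 2) - ∑ i, ∑ j, A i j * A j i)
        + 1 / (2 * ν) * ((∑ i, V i * V i) * (∑ i, v i * v i) - (∑ i, V i * v i) ^ 2) := by
  have h0 : 0 ≤ ∑ i, ∑ j, (ν * (A i j - A j i) - (V i * v j - V j * v i)) ^ 2 :=
    Finset.sum_nonneg fun i _ => Finset.sum_nonneg fun j _ => sq_nonneg _
  have e1 : ∑ i, ∑ j, (ν * (A i j - A j i) - (V i * v j - V j * v i)) ^ 2
      = 4 * ν * (ν / 2 * ((∑ i, ∑ j, A i j ^ 2) - ∑ i, ∑ j, A i j * A j i)
        + 1 / (2 * ν) * ((∑ i, V i * V i) * (∑ i, v i * v i) - (∑ i, V i * v i) ^ 2)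
        - ((∑ i, V i * ∑ j, v j * A i j) - (∑ i, V i * ∑ j, v j * A j i))) := by
    simp only [Fin.sum_univ_three]
    field_simp
    ring
  rw [e1] at h0
  have := nonneg_of_mul_nonneg_right h0 (by positivity)
  linarith

theorem comb_int {g1 g2 g3 g4 f1 f2 f5 f6 : E3 → ℝ} {a b c : ℝ} (j1 : Integrable g1)
    (j2 : Integrable g2) (j3 : Integrable g3) (j4 : Integrable g4) (i1 : Integrable f1)
    (i2 : Integrable f2) (i5 : Integrable f5) (i6 : Integrable f6)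
    (h : ∀ᵐ x, (g1 x - g3 x) - (g2 x - g4 x) ≤ (a * f1 x + -a * f2 x) + (b * f5 x + c * f6 x))
    (e2 : ∫ x, f2 x = 0) :
    ((∫ x, g1 x) - ∫ x, g3 x) - ((∫ x, g2 x) - ∫ x, g4 x)
      ≤ a * (∫ x, f1 x) + (b * (∫ x, f5 x) + c * ∫ x, f6 x) := by
  have k1 : Integrable fun x => g1 x - g3 x := j1.sub j3
  have k2 : Integrable fun x => g2 x - g4 x := j2.sub j4
  have k12 : Integrable fun x => (g1 x - g3 x) - (g2 x - g4 x) := k1.sub k2
  have k3 : Integrable fun x => a * f1 x := i1.const_mul _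
  have k4 : Integrable fun x => -a * f2 x := i2.const_mul _
  have k5 : Integrable fun x => b * f5 x := i5.const_mul _
  have k6 : Integrable fun x => c * f6 x := i6.const_mul _
  have k34 : Integrable fun x => a * f1 x + -a * f2 x := k3.add k4
  have k56 : Integrable fun x => b * f5 x + c * f6 x := k5.add k6
  have k36 : Integrable fun x => (a * f1 x + -a * f2 x) + (b * f5 x + c * f6 x) := k34.add k56
  have h1 := integral_mono_ae k12 k36 h
  rw [integral_sub k1 k2, integral_sub j1 j3, integral_sub j2 j4, integral_add k34 k56,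
    integral_add k3 k4, integral_add k5 k6, integral_const_mul, integral_const_mul,
    integral_const_mul, integral_const_mul, e2] at h1
  linarith

/-- **Form inequality**, velocity. -/
theorem form_speed (hΩ : MeasurableSet Ω) (hb : Bornology.IsBounded Ω) {κ B q R ν : ℝ}
    (hκ : 0 ≤ κ) (hν : 0 < ν) (hq : 0 ≤ q)
    (hq2 : q ≤ 2) (hR : 0 < R) {P : Finset E3}
    (hP : ∀ a ∈ P, ∀ b ∈ P, a ≠ b → 2 * R ≤ dist a b)
    (m : E3) {S : E3 →L[ℝ] E3} (hS : ∀ w, ⟪w, S w⟫_ℝ = 0) {U : L2V Ω} {G : L2M Ω}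
    (hU : (U, G) ∈ graphW Ω)
    (hV : ∀ᵐ x ∂(volume.restrict Ω), ∀ w : E3,
      ‖U x - (m + S x)‖ ^ 2 * ‖w‖ ^ 2 - ⟪U x - (m + S x), w⟫_ℝ ^ 2
        ≤ κ * ν ^ 2 * hwS q R P x w + ν * B * ‖w‖ ^ 2)
    {p : L2V Ω × L2M Ω} (hpW : p ∈ graphW Ω) :
    -⟪tensL p.1, G⟫_ℝ ≤ (1 + κ) / 2 * ν * ‖p.2‖ ^ 2
      + (B + 12 * κ * ν / R ^ 2) / 2 * ‖p.1‖ ^ 2 := by
  have key := graphW_le (fun p => -⟪tensL p.1, G⟫_ℝ - (1 + κ) / 2 * ν * ‖p.2‖ ^ 2
    - (B + 12 * κ * ν / R ^ 2) / 2 * ‖p.1‖ ^ 2) (form_cont hΩ G _ _) (fun p hp => ?_) hpW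
  · linarith
  have hpW := preW_le hp
  obtain ⟨φ, h1, h2, h3⟩ := hp
  have hsm := h1.smooth
  rw [norm_test1 h1 h2, norm_test2 h1 h3]
  have t1 := int_f1 hΩ h1 hpW h2 hU
  have t2 := int_f2 hΩ h1.smooth h1.compact hU
  have t3 := rigid_f1 h1 m hS
  have t4 := rigid_f2 h1 m hS
  have hh := mul_le_mul_of_nonneg_left (hardy h1 hq hq2 hR hP)
    (show 0 ≤ κ * ν / 2 by positivity)
  -- integrability
  have hUi := ext_integrable hΩ hb U
  have j1 : Integrable fun x => ∑ i, ext Ω U x i * f1 φ x i := by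
    refine integrable_finsetSum _ fun i _ => int_W hUi ?_ ?_ i
    · exact (EuclideanSpace.proj (𝕜 := ℝ) i : E3 →L[ℝ] ℝ).continuous.comp (f1_cont hsm)
    · exact (f1_comp h1.compact).comp_left (g := fun y : E3 => y i) (by simp)
  have j2 : Integrable fun x => ∑ i, ext Ω U x i * f2 φ x i := by
    refine integrable_finsetSum _ fun i _ => int_W hUi ?_ ?_ i
    · exact (EuclideanSpace.proj (𝕜 := ℝ) i : E3 →L[ℝ] ℝ).continuous.comp (f2_cont hsm)
    · exact (f2_comp h1.compact).comp_left (g := fun y : E3 => y i) (by simp)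
  have j3 : Integrable fun x => ∑ i, rigid m S x i * f1 φ x i := by
    refine integrable_finsetSum _ fun i _ => Continuous.integrable_of_hasCompactSupport ?_ ?_
    · exact (contDiff_coord (rigid_smooth m S) i).continuous.mul
        ((EuclideanSpace.proj (𝕜 := ℝ) i : E3 →L[ℝ] ℝ).continuous.comp (f1_cont hsm))
    · exact ((f1_comp h1.compact).comp_left (g := fun y : E3 => y i) (by simp)).mul_left
  have j4 : Integrable fun x => ∑ i, rigid m S x i * f2 φ x i := by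
    refine integrable_finsetSum _ fun i _ => Continuous.integrable_of_hasCompactSupport ?_ ?_
    · exact (contDiff_coord (rigid_smooth m S) i).continuous.mul
        ((EuclideanSpace.proj (𝕜 := ℝ) i : E3 →L[ℝ] ℝ).continuous.comp (f2_cont hsm))
    · exact ((f2_comp h1.compact).comp_left (g := fun y : E3 => y i) (by simp)).mul_left
  have i0 := (int_f1' h1)
  have i1 := (int_f2' h1)
  have i2 := hwS_int h1 hq hq2 hR P
  have i3 := int_f4' h1
  -- the pointwise bound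
  have hpt : ∀ᵐ x : E3, ((∑ i, ext Ω U x i * f1 φ x i) - (∑ i, rigid m S x i * f1 φ x i))
      - ((∑ i, ext Ω U x i * f2 φ x i) - (∑ i, rigid m S x i * f2 φ x i))
      ≤ (ν / 2 * (∑ i, ∑ j, jac φ x (i, j) ^ 2)
        + -(ν / 2) * (∑ i, ∑ j, jac φ x (i, j) * jac φ x (j, i)))
        + (κ * ν / 2 * hwS q R P x (φ x) + B / 2 * ‖φ x‖ ^ 2) := by
    have h4 := (ae_restrict_iff' hΩ).1 hV
    filter_upwards [h4] with x hx
    by_cases hxΩ : x ∈ Ω
    · have h5 := hx hxΩ (φ x)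
      have e0 : ext Ω U x = U x := indicator_of_mem hxΩ _
      rw [e0]
      have h6 := speed_pt hν (fun i => (U x - (m + S x)) i) (fun i => φ x i)
        fun i j => jac φ x (i, j)
      have e1 : (∑ i, (U x - (m + S x)) i * (U x - (m + S x)) i) = ‖U x - (m + S x)‖ ^ 2 :=
        dt_self _
      have e2 : (∑ i, φ x i * φ x i) = ‖φ x‖ ^ 2 := dt_self _
      have e3 : (∑ i, (U x - (m + S x)) i * φ x i) = ⟪U x - (m + S x), φ x⟫_ℝ :=
        (inner_E3 _ _).symm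
      have e4 : (∑ i, (U x - (m + S x)) i * ∑ j, φ x j * jac φ x (i, j))
          = (∑ i, (U x) i * f1 φ x i) - ∑ i, rigid m S x i * f1 φ x i := by
        rw [← Finset.sum_sub_distrib]
        refine Finset.sum_congr rfl fun i _ => ?_
        rw [← sub_mul]
        rfl
      have e5 : (∑ i, (U x - (m + S x)) i * ∑ j, φ x j * jac φ x (j, i))
          = (∑ i, (U x) i * f2 φ x i) - ∑ i, rigid m S x i * f2 φ x i := by
        rw [← Finset.sum_sub_distrib]
        refine Finset.sum_congr rfl fun i _ => ?_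
        rw [← sub_mul]
        rfl
      rw [e1, e2, e3, e4, e5] at h6
      have h7 := mul_le_mul_of_nonneg_left h5 (show 0 ≤ 1 / (2 * ν) by positivity)
      have e6 : 1 / (2 * ν) * (κ * ν ^ 2 * hwS q R P x (φ x) + ν * B * ‖φ x‖ ^ 2)
          = κ * ν / 2 * hwS q R P x (φ x) + B / 2 * ‖φ x‖ ^ 2 := by
        field_simp
      rw [e6] at h7
      linarith
    · have e0 : φ x = 0 := test_zero h1 hxΩ
      have e1 : f1 φ x = 0 := by
        refine PiLp.ext fun i => ?_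
        simp [f1, e0]
      have e2 : f2 φ x = 0 := by
        refine PiLp.ext fun i => ?_
        simp [f2, e0]
      have e3 : jac φ x = 0 := image_eq_zero_of_notMem_tsupport fun hc =>
        hxΩ (h1.supp (tsupport_jac_subset hc))
      rw [e1, e2, e3, e0, hwS_zero]
      simp
  have hfin := comb_int j1 j2 j3 j4 i0 i1 i2 i3 hpt (Pool.Agent.TH340.FF.IsTest.cross_zero h1)
  rw [norm_int, t3, t4] at hfin
  rw [show (∫ x, ∑ i, ext Ω U x i * f1 φ x i) = -⟪tensL p.1, G⟫_ℝ from t1,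
    show (∫ x, ∑ i, ext Ω U x i * f2 φ x i) = 0 from t2] at hfin
  have e7 : κ * ν / 2 * (12 / R ^ 2 * ∫ x, ∑ i, φ x i ^ 2)
      = 12 * κ * ν / R ^ 2 / 2 * ∫ x, ∑ i, φ x i ^ 2 := by ring
  rw [mul_add, e7] at hh
  have e8 : (B + 12 * κ * ν / R ^ 2) / 2 * (∫ x, ∑ i, φ x i ^ 2)
      = B / 2 * (∫ x, ∑ i, φ x i ^ 2) + 12 * κ * ν / R ^ 2 / 2 * ∫ x, ∑ i, φ x i ^ 2 := by ring
  have e9 : (1 + κ) / 2 * ν * (∫ x, ∑ i, ∑ j, jac φ x (i, j) ^ 2)
      = ν / 2 * (∫ x, ∑ i, ∑ j, jac φ x (i, j) ^ 2)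
        + κ * ν / 2 * ∫ x, ∑ i, ∑ j, jac φ x (i, j) ^ 2 := by ring
  show -⟪tensL p.1, G⟫_ℝ - (1 + κ) / 2 * ν * (∫ x, ∑ i, ∑ j, jac φ x (i, j) ^ 2)
    - (B + 12 * κ * ν / R ^ 2) / 2 * (∫ x, ∑ i, φ x i ^ 2) ≤ 0
  rw [e8, e9]
  linarith

end Pool.Agent.Q176.SH
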