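import Pool.Agent.TH340.FF.Form5
import Pool.Agent.Q176.SH.Alg

/-!
Integration by parts with radial weights.
-/

set_option autoImplicit false

open MeasureTheory Set Filter Topology
open scoped InnerProductSpace ContDiff

namespace Pool.Agent.Q176.SH

open H772R2.NS Pool.Agent.TH340.FF

/-- the integral of a derivative vanishes -/
theorem int_der {f : E3 → ℝ} (hf : ContDiff ℝ 1 f) (hc : HasCompactSupport f) (i : Fin 3) :
    ∫ x, fderiv ℝ f x (ev i) = 0 := by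
  have hdf : Continuous fun x => fderiv ℝ f x (ev i) :=
    (hf.continuous_fderiv (by norm_num)).clm_apply continuous_const
  have hdfc : HasCompactSupport fun x => fderiv ℝ f x (ev i) :=
    (hc.fderiv (𝕜 := ℝ)).comp_left (g := fun L : E3 →L[ℝ] ℝ => L (ev i)) (by simp)
  have h1 := integral_mul_fderiv_eq_neg_fderiv_mul_of_integrable (μ := (volume : Measure E3))
    (f := fun _ => (1 : ℝ)) (g := f) (v := ev i)
    (by simp) (by simpa using hdf.integrable_of_hasCompactSupport hdfc)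
    (by simpa using hf.continuous.integrable_of_hasCompactSupport hc)
    (fun x _ => differentiableAt_const _)
    (fun x _ => (hf.differentiable (by norm_num)) x)
  simpa using h1

/-- the cut-off `max (1 - s) 0` -/
noncomputable def mm (s : ℝ) : ℝ := max (1 - s) 0

theorem mm_nonneg (s : ℝ) : 0 ≤ mm s := le_max_right _ _

theorem mm_cont : Continuous mm := by unfold mm; fun_prop

theorem mm_eq {s : ℝ} (h : s ≤ 1) : mm s = 1 - s := max_eq_left (by linarith)

theorem mm_zero {s : ℝ} (h : 1 ≤ s) : mm s = 0 := max_eq_right (by linarith)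

theorem mm_le {s : ℝ} (h : 0 ≤ s) : mm s ≤ 1 := max_le (by linarith) zero_le_one

theorem mm_sq_deriv (s : ℝ) : HasDerivAt (fun s => mm s ^ 2) (-2 * mm s) s := by
  rcases lt_trichotomy s 1 with h | h | h
  · have h1 : HasDerivAt (fun s : ℝ => (1 - s) ^ 2) (-2 * (1 - s)) s := by
      have := ((hasDerivAt_id s).const_sub 1).pow 2
      refine this.congr_deriv ?_
      simp
    rw [mm_eq h.le]
    refine h1.congr_of_eventuallyEq ?_
    filter_upwards [Iio_mem_nhds h] with y hy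
    rw [mm_eq (le_of_lt hy)]
  · subst h
    rw [mm_zero le_rfl, mul_zero, hasDerivAt_iff_isLittleO]
    simp only [mm_zero (le_refl (1:ℝ)), smul_zero, sub_zero, ne_eq, OfNat.ofNat_ne_zero,
      not_false_eq_true, zero_pow]
    refine Asymptotics.IsBigO.trans_isLittleO (g := fun y : ℝ => (y - 1) ^ 2) ?_ ?_
    · refine Asymptotics.isBigO_of_le _ fun y => ?_
      rw [Real.norm_eq_abs, Real.norm_eq_abs, abs_of_nonneg (sq_nonneg _),
        abs_of_nonneg (sq_nonneg _)]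
      rcases le_total y 1 with hy | hy
      · rw [mm_eq hy]; nlinarith
      · rw [mm_zero hy]; nlinarith [sq_nonneg (y - 1)]
    · have : (fun y : ℝ => (y - 1) ^ 2) = fun y => (y - 1) * (y - 1) := by
        funext y; ring
      rw [this]
      have h1 : (fun y : ℝ => y - 1) =o[𝓝 1] (fun _ => (1 : ℝ)) := by
        rw [Asymptotics.isLittleO_one_iff]
        have : Tendsto (fun y : ℝ => y - 1) (𝓝 1) (𝓝 (1 - 1)) :=
          (continuous_id.sub continuous_const).tendsto 1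
        simpa using this
      simpa using h1.mul_isBigO (Asymptotics.isBigO_refl (fun y : ℝ => y - 1) (𝓝 1))
  · rw [mm_zero h.le, mul_zero]
    refine (hasDerivAt_const s (0 : ℝ)).congr_of_eventuallyEq ?_
    filter_upwards [Ioi_mem_nhds h] with y hy
    rw [mm_zero (le_of_lt hy)]
    norm_num

theorem mm_sq_contDiff : ContDiff ℝ 1 fun s => mm s ^ 2 := by
  rw [contDiff_one_iff_deriv]
  refine ⟨fun s => (mm_sq_deriv s).differentiableAt, ?_⟩
  have : deriv (fun s => mm s ^ 2) = fun s => -2 * mm s := by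
    funext s
    exact (mm_sq_deriv s).deriv
  rw [this]
  exact continuous_const.mul mm_cont

variable (R ε : ℝ)

/-- the weight `(1 - r/R²)₊² / (r + ε²)` -/
noncomputable def Γ (r : ℝ) : ℝ := mm (r / R ^ 2) ^ 2 / (r + ε ^ 2)

/-- its derivative -/
noncomputable def Γ' (r : ℝ) : ℝ :=
  -2 * mm (r / R ^ 2) / R ^ 2 / (r + ε ^ 2) - mm (r / R ^ 2) ^ 2 / (r + ε ^ 2) ^ 2

/-- the weight `(1 - r/R²)₊² / (r + ε²)²` -/
noncomputable def K (r : ℝ) : ℝ := mm (r / R ^ 2) ^ 2 / (r + ε ^ 2) ^ 2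

/-- its derivative -/
noncomputable def K' (r : ℝ) : ℝ :=
  -2 * mm (r / R ^ 2) / R ^ 2 / (r + ε ^ 2) ^ 2 - 2 * mm (r / R ^ 2) ^ 2 / (r + ε ^ 2) ^ 3

variable {R ε}

theorem Γ_deriv {r : ℝ} (hr : 0 < r + ε ^ 2) : HasDerivAt (Γ R ε) (Γ' R ε r) r := by
  have h0 : HasDerivAt (fun r : ℝ => r / R ^ 2) (1 / R ^ 2) r := (hasDerivAt_id r).div_const _
  have h1 : HasDerivAt (fun r => mm (r / R ^ 2) ^ 2) (-2 * mm (r / R ^ 2) * (1 / R ^ 2)) r :=
    HasDerivAt.comp (h₂ := fun s => mm s ^ 2) r (mm_sq_deriv (r / R ^ 2)) h0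
  have h2 : HasDerivAt (fun r : ℝ => r + ε ^ 2) 1 r := (hasDerivAt_id r).add_const _
  refine (h1.div h2 hr.ne').congr_deriv ?_
  unfold Γ'
  field_simp

theorem K_deriv {r : ℝ} (hr : 0 < r + ε ^ 2) : HasDerivAt (K R ε) (K' R ε r) r := by
  have h0 : HasDerivAt (fun r : ℝ => r / R ^ 2) (1 / R ^ 2) r := (hasDerivAt_id r).div_const _
  have h1 : HasDerivAt (fun r => mm (r / R ^ 2) ^ 2) (-2 * mm (r / R ^ 2) * (1 / R ^ 2)) r :=
    HasDerivAt.comp (h₂ := fun s => mm s ^ 2) r (mm_sq_deriv (r / R ^ 2)) h0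
  have h2 : HasDerivAt (fun r : ℝ => (r + ε ^ 2) ^ 2) (2 * (r + ε ^ 2)) r := by
    have := ((hasDerivAt_id r).add_const (ε ^ 2)).pow 2
    refine this.congr_deriv ?_
    simp
  refine (h1.div h2 (by positivity)).congr_deriv ?_
  unfold K'
  field_simp

theorem Γ_contDiffOn (hε : 0 < ε) : ContDiffOn ℝ 1 (Γ R ε) (Ici 0) := by
  unfold Γ
  refine ContDiffOn.div ?_ (by fun_prop) fun r hr => ?_
  · exact (mm_sq_contDiff.comp (contDiff_id.div_const (R ^ 2))).contDiffOn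
  · have : (0:ℝ) ≤ r := hr
    positivity

theorem K_contDiffOn (hε : 0 < ε) : ContDiffOn ℝ 1 (K R ε) (Ici 0) := by
  unfold K
  refine ContDiffOn.div ?_ (by fun_prop) fun r hr => ?_
  · exact (mm_sq_contDiff.comp (contDiff_id.div_const (R ^ 2))).contDiffOn
  · have : (0:ℝ) ≤ r := hr
    positivity

/-- the divergence, in terms of scalar quantities -/
noncomputable def Dq (q g g' k k' N ρ β l1 l2 l3 : ℝ) : ℝ :=
  3 * ((1 + 2 * q) / 6 * N * g + 7 * (2 - q) / 12 * β ^ 2 * k)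
    + (1 + 2 * q) / 6 * (2 * l1 * g + 2 * N * g' * ρ)
    + 7 * (2 - q) / 12 * (2 * β * (β + l3) * k + 2 * β ^ 2 * k' * ρ)
    + (1 - 3 * q) / 3 * (2 * g' * β * β + g * (N + l2))

/-- the divergence at `x` -/
noncomputable def Fe (φ : E3 → E3) (a : E3) (q R ε : ℝ) (x : E3) : ℝ :=
  Dq q (Γ R ε (‖x - a‖ ^ 2)) (Γ' R ε (‖x - a‖ ^ 2)) (K R ε (‖x - a‖ ^ 2)) (K' R ε (‖x - a‖ ^ 2))
    (‖φ x‖ ^ 2) (‖x - a‖ ^ 2) ⟪x - a, φ x⟫_ℝ ⟪φ x, fderiv ℝ φ x (x - a)⟫_ℝ
    ⟪x - a, fderiv ℝ φ x (φ x)⟫_ℝ ⟪x - a, fderiv ℝ φ x (x - a)⟫_ℝ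

theorem sum_ev (y : E3) (L : E3 →L[ℝ] ℝ) : ∑ i, y i * L (ev i) = L y := by
  conv_rhs => rw [show y = ∑ i, y i • ev i from by
    refine PiLp.ext fun j => ?_
    simp [ev, Finset.sum_apply, Pi.single_apply]]
  rw [map_sum]
  simp

variable {φ : E3 → E3} {Ω : Set E3}

theorem int_Fe (h : IsTest Ω φ) (a : E3) (q : ℝ) {R ε : ℝ} (hε : 0 < ε) :
    ∫ x, Fe φ a q R ε x = 0 := by
  have hsm := h.smooth
  have hφ1 : ContDiff ℝ 1 φ := hsm.of_le (by exact_mod_cast le_top)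
  have hρ : ContDiff ℝ 1 fun x : E3 => ‖x - a‖ ^ 2 := (contDiff_id.sub contDiff_const).norm_sq ℝ
  have hg : ContDiff ℝ 1 fun x : E3 => Γ R ε (‖x - a‖ ^ 2) := by
    rw [← contDiffOn_univ]
    exact (Γ_contDiffOn hε).comp hρ.contDiffOn fun x _ => by
      show (0:ℝ) ≤ _
      positivity
  have hk : ContDiff ℝ 1 fun x : E3 => K R ε (‖x - a‖ ^ 2) := by
    rw [← contDiffOn_univ]
    exact (K_contDiffOn hε).comp hρ.contDiffOn fun x _ => by
      show (0:ℝ) ≤ _
      positivity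
  have hN : ContDiff ℝ 1 fun x : E3 => ‖φ x‖ ^ 2 := hφ1.norm_sq ℝ
  have hβ : ContDiff ℝ 1 fun x : E3 => ⟪x - a, φ x⟫_ℝ :=
    (contDiff_id.sub contDiff_const).inner ℝ hφ1
  set S1 : E3 → ℝ := fun x => (1 + 2 * q) / 6 * ‖φ x‖ ^ 2 * Γ R ε (‖x - a‖ ^ 2)
    + 7 * (2 - q) / 12 * ⟪x - a, φ x⟫_ℝ ^ 2 * K R ε (‖x - a‖ ^ 2) with hS1
  set S2 : E3 → ℝ := fun x => (1 - 3 * q) / 3 * (Γ R ε (‖x - a‖ ^ 2) * ⟪x - a, φ x⟫_ℝ) with hS2
  have cS1 : ContDiff ℝ 1 S1 :=
    ((contDiff_const.mul hN).mul hg).add ((contDiff_const.mul (hβ.pow 2)).mul hk)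
  have cS2 : ContDiff ℝ 1 S2 := contDiff_const.mul (hg.mul hβ)
  have hφ0 : ∀ x, φ x = 0 → S1 x = 0 := fun x hx => by simp [hS1, hx]
  have sS1 : HasCompactSupport S1 := h.compact.mono fun x hx h0 => hx (hφ0 x h0)
  set f : Fin 3 → E3 → ℝ := fun i x => S1 x * (x i - a i) + S2 x * φ x i with hf
  have cφ : ∀ i, ContDiff ℝ 1 fun x : E3 => φ x i := fun i =>
    (contDiff_coord hsm i).of_le (by exact_mod_cast le_top)
  have cx : ∀ i : Fin 3, ContDiff ℝ 1 fun x : E3 => x i - a i := fun i =>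
    (contDiff_piLp_apply (p := 2)).sub contDiff_const
  have cf : ∀ i, ContDiff ℝ 1 (f i) := fun i => (cS1.mul (cx i)).add (cS2.mul (cφ i))
  have sf : ∀ i, HasCompactSupport (f i) := fun i => h.compact.mono fun x hx h0 => hx (by
    simp [hf, hφ0 x h0, h0])
  have key : ∀ x, ∑ i, fderiv ℝ (f i) x (ev i) = Fe φ a q R ε x := by
    intro x
    have hpos : 0 < ‖x - a‖ ^ 2 + ε ^ 2 := by positivity
    have dφ : HasFDerivAt φ (fderiv ℝ φ x) x := (hφ1.differentiable (by norm_num) x).hasFDerivAt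
    have dy : HasFDerivAt (fun x : E3 => x - a) (ContinuousLinearMap.id ℝ E3) x :=
      (hasFDerivAt_id x).sub_const a
    have dρ := dy.norm_sq
    have dg := (Γ_deriv (R := R) hpos).comp_hasFDerivAt x dρ
    have dk := (K_deriv (R := R) hpos).comp_hasFDerivAt x dρ
    have dN := dφ.norm_sq
    have dβ := dy.inner ℝ dφ
    have d1 := ((dN.const_mul ((1 + 2 * q) / 6)).mul dg).add
      (((dβ.pow 2).const_mul (7 * (2 - q) / 12)).mul dk)
    have d2 := (dg.mul dβ).const_mul ((1 - 3 * q) / 3)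
    have e1 : ∀ w, fderiv ℝ S1 x w = (1 + 2 * q) / 6 * (2 * ⟪φ x, fderiv ℝ φ x w⟫_ℝ
          * Γ R ε (‖x - a‖ ^ 2) + ‖φ x‖ ^ 2 * (Γ' R ε (‖x - a‖ ^ 2) * (2 * ⟪x - a, w⟫_ℝ)))
        + 7 * (2 - q) / 12 * (2 * ⟪x - a, φ x⟫_ℝ * (⟪x - a, fderiv ℝ φ x w⟫_ℝ + ⟪w, φ x⟫_ℝ)
          * K R ε (‖x - a‖ ^ 2)
          + ⟪x - a, φ x⟫_ℝ ^ 2 * (K' R ε (‖x - a‖ ^ 2) * (2 * ⟪x - a, w⟫_ℝ))) := by
      intro w
      have e : HasFDerivAt S1 _ x := d1
      rw [e.fderiv]
      simp only [Function.comp_apply]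
      generalize x - a = y
      simp [fderivInnerCLM_apply, innerSL_apply_apply]
      ring
    have e2 : ∀ w, fderiv ℝ S2 x w = (1 - 3 * q) / 3 * (Γ' R ε (‖x - a‖ ^ 2)
        * (2 * ⟪x - a, w⟫_ℝ) * ⟪x - a, φ x⟫_ℝ
        + Γ R ε (‖x - a‖ ^ 2) * (⟪x - a, fderiv ℝ φ x w⟫_ℝ + ⟪w, φ x⟫_ℝ)) := by
      intro w
      have e : HasFDerivAt S2 _ x := d2
      rw [e.fderiv]
      simp only [Function.comp_apply]
      generalize x - a = y
      simp [fderivInnerCLM_apply, innerSL_apply_apply]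
      ring
    have e3 : ∀ i, fderiv ℝ (f i) x (ev i) = S1 x + (x i - a i) * fderiv ℝ S1 x (ev i)
        + (S2 x * jac φ x (i, i) + φ x i * fderiv ℝ S2 x (ev i)) := by
      intro i
      have hd1 : DifferentiableAt ℝ S1 x := cS1.differentiable (by norm_num) x
      have hd2 : DifferentiableAt ℝ S2 x := cS2.differentiable (by norm_num) x
      have hd3 : DifferentiableAt ℝ (fun x : E3 => x i - a i) x :=
        (cx i).differentiable (by norm_num) x
      have hd4 : DifferentiableAt ℝ (fun x : E3 => φ x i) x :=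
        (cφ i).differentiable (by norm_num) x
      have e4 : fderiv ℝ (fun x : E3 => x i - a i) x (ev i) = 1 := by
        have : HasFDerivAt (fun x : E3 => x i - a i) (EuclideanSpace.proj (𝕜 := ℝ) i) x :=
          (EuclideanSpace.proj (𝕜 := ℝ) i).hasFDerivAt.sub_const _
        rw [this.fderiv]
        simp [ev]
      have e5 : HasFDerivAt (f i) _ x := (hd1.hasFDerivAt.mul hd3.hasFDerivAt).add
        (hd2.hasFDerivAt.mul hd4.hasFDerivAt)
      rw [e5.fderiv]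
      simp only [ContinuousLinearMap.add_apply, ContinuousLinearMap.smul_apply, smul_eq_mul, e4,
        ← jac_eq_coord hsm]
      ring
    simp_rw [e3, Finset.sum_add_distrib, ← Finset.mul_sum]
    have e6 : ∑ i, (x i - a i) * fderiv ℝ S1 x (ev i) = fderiv ℝ S1 x (x - a) :=
      sum_ev (x - a) _
    rw [e6, sum_ev, h.divfree x, mul_zero, zero_add, e1, e2]
    simp only [Finset.sum_const, Finset.card_univ, Fintype.card_fin, nsmul_eq_mul]
    unfold Fe Dq
    rw [hS1]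
    rw [real_inner_self_eq_norm_sq, real_inner_self_eq_norm_sq]
    push_cast
    ring
  have hi : ∀ i, Integrable fun x => fderiv ℝ (f i) x (ev i) := fun i => by
    have hdf : Continuous fun x => fderiv ℝ (f i) x (ev i) :=
      ((cf i).continuous_fderiv (by norm_num)).clm_apply continuous_const
    have hdfc : HasCompactSupport fun x => fderiv ℝ (f i) x (ev i) :=
      ((sf i).fderiv (𝕜 := ℝ)).comp_left (g := fun L : E3 →L[ℝ] ℝ => L (ev i)) (by simp)
    exact hdf.integrable_of_hasCompactSupport hdfc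
  simp_rw [← key]
  rw [integral_finsetSum _ fun i _ => hi i]
  exact Finset.sum_eq_zero fun i _ => int_der (cf i) (sf i) i

end Pool.Agent.Q176.SH
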