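import Pool.Agent.Q176.SH.Ibp

/-!
The identity with the singular weights.
-/

set_option autoImplicit false

open MeasureTheory Set Filter Topology
open scoped InnerProductSpace ContDiff

namespace Pool.Agent.Q176.SH

open H772R2.NS Pool.Agent.TH340.FF

theorem Dq_eq {q z w t m N ρ β l1 l2 l3 : ℝ} (hz : z * ρ = 1) :
    Dq q (m ^ 2 * t * z) (-(2 * m * t * w * z + m ^ 2 * t ^ 2 * z ^ 2)) (m ^ 2 * t ^ 2 * z ^ 2)
      (-(2 * m * t ^ 2 * w * z ^ 2 + 2 * m ^ 2 * t ^ 3 * z ^ 3)) N ρ β l1 l2 l3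
    = (N * z) * (3 * ((1 + 2 * q) / 6 * (m ^ 2 * t)) - 2 * ((1 + 2 * q) / 6 * (m ^ 2 * t ^ 2))
        + (1 - 3 * q) / 3 * (m ^ 2 * t))
      + (β ^ 2 * z ^ 2) * (5 * (7 * (2 - q) / 12 * (m ^ 2 * t ^ 2))
        - 4 * (7 * (2 - q) / 12 * (m ^ 2 * t ^ 3)) - 2 * ((1 - 3 * q) / 3 * (m ^ 2 * t ^ 2)))
      + (l1 * z) * (2 * ((1 + 2 * q) / 6 * (m ^ 2 * t)))
      + (β * l3 * z ^ 2) * (2 * (7 * (2 - q) / 12 * (m ^ 2 * t ^ 2)))
      + (l2 * z) * ((1 - 3 * q) / 3 * (m ^ 2 * t))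
      + (N * w) * (-4 * ((1 + 2 * q) / 6 * (m * t)))
      + (β ^ 2 * z * w) * (-4 * (7 * (2 - q) / 12 * (m * t ^ 2))
        - 4 * ((1 - 3 * q) / 3 * (m * t))) := by
  unfold Dq
  linear_combination (-(2 * ((1 + 2 * q) / 6) * N * (2 * m * t * w + m ^ 2 * t ^ 2 * z))
    - 2 * (7 * (2 - q) / 12) * β ^ 2 * (2 * m * t ^ 2 * w * z + 2 * m ^ 2 * t ^ 3 * z ^ 2)) * hz

theorem Dq_bound {q z w t m N ρ β l1 l2 l3 B : ℝ} (hq : 0 ≤ q) (hq2 : q ≤ 2) (hz : z * ρ = 1)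
    (ht : 0 ≤ t) (ht1 : t ≤ 1) (hm : 0 ≤ m) (hm1 : m ≤ 1) (hB : 0 ≤ B)
    (b1 : |N * z| ≤ B) (b2 : |β ^ 2 * z ^ 2| ≤ B) (b3 : |l1 * z| ≤ B) (b4 : |β * l3 * z ^ 2| ≤ B)
    (b5 : |l2 * z| ≤ B) (b6 : |N * w| ≤ B) (b7 : |β ^ 2 * z * w| ≤ B) :
    |Dq q (m ^ 2 * t * z) (-(2 * m * t * w * z + m ^ 2 * t ^ 2 * z ^ 2)) (m ^ 2 * t ^ 2 * z ^ 2)
      (-(2 * m * t ^ 2 * w * z ^ 2 + 2 * m ^ 2 * t ^ 3 * z ^ 3)) N ρ β l1 l2 l3| ≤ 200 * B := by
  rw [Dq_eq hz]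
  have p1 : m ^ 2 * t ≤ 1 := mul_le_one₀ (pow_le_one₀ hm hm1) ht ht1
  have p2 : m ^ 2 * t ^ 2 ≤ 1 := mul_le_one₀ (pow_le_one₀ hm hm1) (by positivity) (pow_le_one₀ ht ht1)
  have p3 : m ^ 2 * t ^ 3 ≤ 1 := mul_le_one₀ (pow_le_one₀ hm hm1) (by positivity) (pow_le_one₀ ht ht1)
  have p4 : m * t ≤ 1 := mul_le_one₀ hm1 ht ht1
  have p5 : m * t ^ 2 ≤ 1 := mul_le_one₀ hm1 (by positivity) (pow_le_one₀ ht ht1)
  have hb : ∀ u p : ℝ, |u| ≤ 2 → 0 ≤ p → p ≤ 1 → |u * p| ≤ 2 := by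
    intro u p hu hp hp1
    rw [abs_mul, abs_of_nonneg hp]
    nlinarith [abs_nonneg u]
  have ha : |(1 + 2 * q) / 6| ≤ 2 := by rw [abs_le]; constructor <;> linarith
  have hb' : |(1 - 3 * q) / 3| ≤ 2 := by rw [abs_le]; constructor <;> linarith
  have hc : |7 * (2 - q) / 12| ≤ 2 := by rw [abs_le]; constructor <;> linarith
  have a1 := abs_le.1 (hb _ _ ha (by positivity) p1)
  have a2 := abs_le.1 (hb _ _ ha (by positivity) p2)
  have a4 := abs_le.1 (hb _ _ ha (by positivity) p4)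
  have c1 := abs_le.1 (hb _ _ hb' (by positivity) p1)
  have c2 := abs_le.1 (hb _ _ hb' (by positivity) p2)
  have c4 := abs_le.1 (hb _ _ hb' (by positivity) p4)
  have d2 := abs_le.1 (hb _ _ hc (by positivity) p2)
  have d3 := abs_le.1 (hb _ _ hc (by positivity) p3)
  have d5 := abs_le.1 (hb _ _ hc (by positivity) p5)
  have mulb : ∀ x c C : ℝ, |x| ≤ B → |c| ≤ C → |x * c| ≤ C * B := by
    intro x c C hx hc
    rw [abs_mul, mul_comm C B]
    exact mul_le_mul hx hc (abs_nonneg _) hB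
  have k1 := abs_le.1 (mulb _ (3 * ((1 + 2 * q) / 6 * (m ^ 2 * t))
    - 2 * ((1 + 2 * q) / 6 * (m ^ 2 * t ^ 2)) + (1 - 3 * q) / 3 * (m ^ 2 * t)) 20 b1
    (by rw [abs_le]; constructor <;> linarith [a1.1, a1.2, a2.1, a2.2, c1.1, c1.2]))
  have k2 := abs_le.1 (mulb _ (5 * (7 * (2 - q) / 12 * (m ^ 2 * t ^ 2))
        - 4 * (7 * (2 - q) / 12 * (m ^ 2 * t ^ 3)) - 2 * ((1 - 3 * q) / 3 * (m ^ 2 * t ^ 2))) 30 b2
    (by rw [abs_le]; constructor <;> linarith [d2.1, d2.2, d3.1, d3.2, c2.1, c2.2]))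
  have k3 := abs_le.1 (mulb _ (2 * ((1 + 2 * q) / 6 * (m ^ 2 * t))) 20 b3
    (by rw [abs_le]; constructor <;> linarith [a1.1, a1.2]))
  have k4 := abs_le.1 (mulb _ (2 * (7 * (2 - q) / 12 * (m ^ 2 * t ^ 2))) 20 b4
    (by rw [abs_le]; constructor <;> linarith [d2.1, d2.2]))
  have k5 := abs_le.1 (mulb _ ((1 - 3 * q) / 3 * (m ^ 2 * t)) 20 b5
    (by rw [abs_le]; constructor <;> linarith [c1.1, c1.2]))
  have k6 := abs_le.1 (mulb _ (-4 * ((1 + 2 * q) / 6 * (m * t))) 20 b6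
    (by rw [abs_le]; constructor <;> linarith [a4.1, a4.2]))
  have k7 := abs_le.1 (mulb _ (-4 * (7 * (2 - q) / 12 * (m * t ^ 2))
        - 4 * ((1 - 3 * q) / 3 * (m * t))) 20 b7
    (by rw [abs_le]; constructor <;> linarith [d5.1, d5.2, c4.1, c4.2]))
  rw [abs_le]
  constructor <;> linarith [k1.1, k1.2, k2.1, k2.2, k3.1, k3.2, k4.1, k4.2, k5.1, k5.2, k6.1,
    k6.2, k7.1, k7.2]

variable {φ : E3 → E3} {Ω : Set E3}

theorem bounded_test (h : IsTest Ω φ) : ∃ M : ℝ, 0 ≤ M ∧ ∀ x, ‖φ x‖ ≤ M ∧ ‖fderiv ℝ φ x‖ ≤ M := by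
  obtain ⟨M1, h1⟩ := h.compact.exists_bound_of_continuous h.smooth.continuous
  obtain ⟨M2, h2⟩ := (h.compact.fderiv (𝕜 := ℝ)).exists_bound_of_continuous
    (h.smooth.continuous_fderiv (by simp))
  refine ⟨max (max M1 M2) 0, le_max_right _ _, fun x => ⟨?_, ?_⟩⟩
  · exact (h1 x).trans ((le_max_left _ _).trans (le_max_left _ _))
  · exact (h2 x).trans ((le_max_right _ _).trans (le_max_left _ _))

theorem Fe_out (a : E3) (q : ℝ) {R : ℝ} (hR : 0 < R) (ε : ℝ) {x : E3} (hx : x ∉ Metric.ball a R) :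
    Fe φ a q R ε x = 0 := by
  have h1 : R ≤ ‖x - a‖ := by
    rw [Metric.mem_ball, dist_eq_norm, not_lt] at hx
    exact hx
  have h2 : 1 ≤ ‖x - a‖ ^ 2 / R ^ 2 := by
    rw [le_div_iff₀ (by positivity), one_mul]
    gcongr
  have h3 := mm_zero h2
  unfold Fe Γ Γ' K K' Dq
  rw [h3]
  ring

theorem Fe_bound (h : IsTest Ω φ) (a : E3) {q R : ℝ} (hq : 0 ≤ q) (hq2 : q ≤ 2) (hR : 0 < R) :
    ∃ C : ℝ, 0 ≤ C ∧ ∀ ε x, x ≠ a →
      ‖Fe φ a q R ε x‖ ≤ (Metric.ball a R).indicator (fun x => C * (1 + ‖x - a‖ ^ (-2 : ℝ))) x := by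
  obtain ⟨M, hM0, hM⟩ := bounded_test h
  refine ⟨200 * M ^ 2, by positivity, fun ε x hxa => ?_⟩
  by_cases hx : x ∈ Metric.ball a R
  swap
  · rw [indicator_of_notMem hx, Fe_out a q hR ε hx, norm_zero]
  rw [indicator_of_mem hx]
  have hs : 0 < ‖x - a‖ := norm_pos_iff.2 (sub_ne_zero.2 hxa)
  have hsR : ‖x - a‖ < R := by rwa [Metric.mem_ball, dist_eq_norm] at hx
  obtain ⟨n1, n2⟩ := hM x
  set s := ‖x - a‖ with hsdef
  have hrp : s ^ (-2 : ℝ) = 1 / s ^ 2 := by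
    rw [Real.rpow_neg hs.le, one_div]
    norm_cast
  rw [hrp]
  set z := 1 / s ^ 2 with hz
  have hz0 : 0 < z := by positivity
  have hzρ : z * s ^ 2 = 1 := by rw [hz]; field_simp
  set w := 1 / R ^ 2 with hw
  have hw0 : 0 < w := by positivity
  have hwz : w ≤ z := by
    rw [hw, hz]
    exact one_div_le_one_div_of_le (by positivity) (by gcongr)
  have hρε : 0 < s ^ 2 + ε ^ 2 := by positivity
  set t := s ^ 2 / (s ^ 2 + ε ^ 2) with ht
  have ht0 : 0 ≤ t := by positivity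
  have ht1 : t ≤ 1 := (div_le_one hρε).2 (by nlinarith [sq_nonneg ε])
  have htz : 1 / (s ^ 2 + ε ^ 2) = t * z := by rw [ht, hz]; field_simp
  set m := mm (s ^ 2 / R ^ 2) with hm
  have hm0 : 0 ≤ m := mm_nonneg _
  have hm1 : m ≤ 1 := mm_le (by positivity)
  have eg : Γ R ε (s ^ 2) = m ^ 2 * t * z := by
    unfold Γ
    rw [← hm, div_eq_mul_one_div, htz]
    ring
  have eg' : Γ' R ε (s ^ 2) = -(2 * m * t * w * z + m ^ 2 * t ^ 2 * z ^ 2) := by
    unfold Γ'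
    rw [← hm, div_eq_mul_one_div _ (s ^ 2 + ε ^ 2), div_eq_mul_one_div _ ((s ^ 2 + ε ^ 2) ^ 2),
      ← one_div_pow, htz, div_eq_mul_one_div _ (R ^ 2), ← hw]
    ring
  have ek : K R ε (s ^ 2) = m ^ 2 * t ^ 2 * z ^ 2 := by
    unfold K
    rw [← hm, div_eq_mul_one_div, ← one_div_pow, htz]
    ring
  have ek' : K' R ε (s ^ 2) = -(2 * m * t ^ 2 * w * z ^ 2 + 2 * m ^ 2 * t ^ 3 * z ^ 3) := by
    unfold K'
    rw [← hm, div_eq_mul_one_div _ ((s ^ 2 + ε ^ 2) ^ 2), div_eq_mul_one_div _ ((s ^ 2 + ε ^ 2) ^ 3),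
      ← one_div_pow, ← one_div_pow, htz, div_eq_mul_one_div _ (R ^ 2), ← hw]
    ring
  have hsz : s * z ≤ 1 + z := by
    have : s * z * s = 1 := by rw [← hzρ]; ring
    have h2 : (s * z) ^ 2 = z := by
      calc (s * z) ^ 2 = z * (z * s ^ 2) := by ring
        _ = z := by rw [hzρ, mul_one]
    nlinarith [sq_nonneg (s * z - 1 / 2), sq_nonneg (s * z)]
  have hsz0 : 0 ≤ s * z := by positivity
  set B := M ^ 2 * (1 + z) with hB
  have hB0 : 0 ≤ B := by positivity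
  have hMM : 0 ≤ M ^ 2 := by positivity
  have hLy : ‖fderiv ℝ φ x (x - a)‖ ≤ M * s :=
    (ContinuousLinearMap.le_opNorm _ _).trans (mul_le_mul_of_nonneg_right n2 hs.le)
  have hLφ : ‖fderiv ℝ φ x (φ x)‖ ≤ M * M :=
    (ContinuousLinearMap.le_opNorm _ _).trans (mul_le_mul n2 n1 (norm_nonneg _) hM0)
  have hβ : |⟪x - a, φ x⟫_ℝ| ≤ s * M := (abs_real_inner_le_norm _ _).trans
    (mul_le_mul_of_nonneg_left n1 hs.le)
  have hl1 : |⟪φ x, fderiv ℝ φ x (x - a)⟫_ℝ| ≤ M * (M * s) :=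
    (abs_real_inner_le_norm _ _).trans (mul_le_mul n1 hLy (norm_nonneg _) hM0)
  have hl2 : |⟪x - a, fderiv ℝ φ x (φ x)⟫_ℝ| ≤ s * (M * M) :=
    (abs_real_inner_le_norm _ _).trans (mul_le_mul_of_nonneg_left hLφ hs.le)
  have hl3 : |⟪x - a, fderiv ℝ φ x (x - a)⟫_ℝ| ≤ s * (M * s) :=
    (abs_real_inner_le_norm _ _).trans (mul_le_mul_of_nonneg_left hLy hs.le)
  have hN : ‖φ x‖ ^ 2 ≤ M ^ 2 := by gcongr
  have hβ2 : ⟪x - a, φ x⟫_ℝ ^ 2 ≤ s ^ 2 * M ^ 2 := by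
    rw [← sq_abs, ← mul_pow]
    gcongr
  have hzB : M ^ 2 * z ≤ B := by rw [hB]; nlinarith
  have hszB : M ^ 2 * (s * z) ≤ B := by rw [hB]; exact mul_le_mul_of_nonneg_left hsz hMM
  have hD := Dq_bound (q := q) (z := z) (w := w) (t := t) (m := m) (N := ‖φ x‖ ^ 2) (ρ := s ^ 2)
    (β := ⟪x - a, φ x⟫_ℝ) (l1 := ⟪φ x, fderiv ℝ φ x (x - a)⟫_ℝ)
    (l2 := ⟪x - a, fderiv ℝ φ x (φ x)⟫_ℝ) (l3 := ⟪x - a, fderiv ℝ φ x (x - a)⟫_ℝ) (B := B)
    hq hq2 hzρ ht0 ht1 hm0 hm1 hB0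
    (by
      rw [abs_of_nonneg (by positivity)]
      exact (mul_le_mul_of_nonneg_right hN hz0.le).trans hzB)
    (by
      rw [abs_of_nonneg (by positivity)]
      calc ⟪x - a, φ x⟫_ℝ ^ 2 * z ^ 2 ≤ s ^ 2 * M ^ 2 * z ^ 2 := by gcongr
        _ = M ^ 2 * z * (z * s ^ 2) := by ring
        _ = M ^ 2 * z := by rw [hzρ, mul_one]
        _ ≤ B := hzB)
    (by
      rw [abs_mul, abs_of_pos hz0]
      calc |⟪φ x, fderiv ℝ φ x (x - a)⟫_ℝ| * z ≤ M * (M * s) * z := by gcongr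
        _ = M ^ 2 * (s * z) := by ring
        _ ≤ B := hszB)
    (by
      rw [abs_mul, abs_mul, abs_of_pos (by positivity : 0 < z ^ 2)]
      calc |⟪x - a, φ x⟫_ℝ| * |⟪x - a, fderiv ℝ φ x (x - a)⟫_ℝ| * z ^ 2
          ≤ s * M * (s * (M * s)) * z ^ 2 := by gcongr
        _ = M ^ 2 * (s * z) * (z * s ^ 2) := by ring
        _ = M ^ 2 * (s * z) := by rw [hzρ, mul_one]
        _ ≤ B := hszB)
    (by
      rw [abs_mul, abs_of_pos hz0]
      calc |⟪x - a, fderiv ℝ φ x (φ x)⟫_ℝ| * z ≤ s * (M * M) * z := by gcongr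
        _ = M ^ 2 * (s * z) := by ring
        _ ≤ B := hszB)
    (by
      rw [abs_of_nonneg (by positivity)]
      calc ‖φ x‖ ^ 2 * w ≤ M ^ 2 * z := by gcongr
        _ ≤ B := hzB)
    (by
      rw [abs_of_nonneg (by positivity)]
      calc ⟪x - a, φ x⟫_ℝ ^ 2 * z * w ≤ s ^ 2 * M ^ 2 * z * z := by gcongr
        _ = M ^ 2 * z * (z * s ^ 2) := by ring
        _ = M ^ 2 * z := by rw [hzρ, mul_one]
        _ ≤ B := hzB)
  unfold Fe
  rw [← hsdef, eg, eg', ek, ek', Real.norm_eq_abs]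
  refine hD.trans (le_of_eq ?_)
  rw [hB]
  ring

theorem dom_int (a : E3) {R : ℝ} (hR : 0 < R) (C : ℝ) :
    Integrable ((Metric.ball a R).indicator fun x : E3 => C * (1 + ‖x - a‖ ^ (-2 : ℝ))) := by
  rw [integrable_indicator_iff Metric.isOpen_ball.measurableSet]
  refine Integrable.const_mul ?_ C
  have hfin : IntegrableOn (fun _ : E3 => (1:ℝ)) (Metric.ball a R) :=
    integrableOn_const (by exact measure_ball_lt_top.ne)
  refine Integrable.add hfin ?_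
  have h0 : IntegrableOn (fun x : E3 => ‖x‖ ^ (-2 : ℝ)) (Metric.ball 0 R) := by
    rw [integrableOn_fun_norm_addHaar (μ := (volume : Measure E3)) (f := fun r : ℝ => r ^ (-2:ℝ))]
    have : ∀ r ∈ Ioo (0:ℝ) R, r ^ (Module.finrank ℝ E3 - 1) • r ^ (-2 : ℝ) = 1 := by
      intro r hr
      rw [finrank_euclideanSpace_fin, smul_eq_mul, ← Real.rpow_natCast, ← Real.rpow_add hr.1]
      norm_num
    refine (integrableOn_congr_fun this measurableSet_Ioo).2 ?_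
    exact integrableOn_const (by simp)
  have h1 := (MeasurePreserving.integrableOn_comp_preimage
    (measurePreserving_sub_right (volume : Measure E3) a)
    (MeasurableEquiv.subRight a).measurableEmbedding).2 h0
  have h2 : (fun x : E3 => x - a) ⁻¹' Metric.ball 0 R = Metric.ball a R := by
    ext x
    simp [Metric.mem_ball, dist_eq_norm]
  rw [h2] at h1
  exact h1

theorem mm_meas : Measurable mm := mm_cont.measurable

theorem Fe_meas (h : IsTest Ω φ) (a : E3) (q R ε : ℝ) : Measurable (Fe φ a q R ε) := by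
  have hc := h.smooth.continuous
  have hd : Continuous (fderiv ℝ φ) := h.smooth.continuous_fderiv (by simp)
  have m1 : Measurable fun x : E3 => ‖x - a‖ ^ 2 := by fun_prop
  have mΓ : Measurable fun x : E3 => Γ R ε (‖x - a‖ ^ 2) := by
    unfold Γ
    exact ((mm_meas.comp (m1.div_const _)).pow_const 2).div (m1.add_const _)
  have mΓ' : Measurable fun x : E3 => Γ' R ε (‖x - a‖ ^ 2) := by
    unfold Γ'
    exact ((((mm_meas.comp (m1.div_const _)).const_mul _).div_const _).div (m1.add_const _)).sub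
      (((mm_meas.comp (m1.div_const _)).pow_const 2).div ((m1.add_const _).pow_const 2))
  have mK : Measurable fun x : E3 => K R ε (‖x - a‖ ^ 2) := by
    unfold K
    exact ((mm_meas.comp (m1.div_const _)).pow_const 2).div ((m1.add_const _).pow_const 2)
  have mK' : Measurable fun x : E3 => K' R ε (‖x - a‖ ^ 2) := by
    unfold K'
    exact ((((mm_meas.comp (m1.div_const _)).const_mul _).div_const _).div
      ((m1.add_const _).pow_const 2)).sub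
      ((((mm_meas.comp (m1.div_const _)).pow_const 2).const_mul _).div
        ((m1.add_const _).pow_const 3))
  have mN : Measurable fun x : E3 => ‖φ x‖ ^ 2 := (hc.norm.pow 2).measurable
  have mβ : Measurable fun x : E3 => ⟪x - a, φ x⟫_ℝ :=
    ((continuous_id.sub continuous_const).inner hc).measurable
  have ml1 : Measurable fun x : E3 => ⟪φ x, fderiv ℝ φ x (x - a)⟫_ℝ :=
    (hc.inner (hd.clm_apply (continuous_id.sub continuous_const))).measurable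
  have ml2 : Measurable fun x : E3 => ⟪x - a, fderiv ℝ φ x (φ x)⟫_ℝ :=
    ((continuous_id.sub continuous_const).inner (hd.clm_apply hc)).measurable
  have ml3 : Measurable fun x : E3 => ⟪x - a, fderiv ℝ φ x (x - a)⟫_ℝ :=
    ((continuous_id.sub continuous_const).inner
      (hd.clm_apply (continuous_id.sub continuous_const))).measurable
  unfold Fe Dq
  fun_prop

theorem Fe_lim (a : E3) (q R : ℝ) {x : E3} (hxa : x ≠ a) :
    Tendsto (fun n : ℕ => Fe φ a q R (1 / ((n : ℝ) + 1)) x) atTop (𝓝 (Fe φ a q R 0 x)) := by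
  have hs : 0 < ‖x - a‖ := norm_pos_iff.2 (sub_ne_zero.2 hxa)
  have hc : ContinuousAt (fun ε => Fe φ a q R ε x) 0 := by
    have h0 : ‖x - a‖ ^ 2 + (0:ℝ) ^ 2 ≠ 0 := by positivity
    have h1 : ContinuousAt (fun ε : ℝ => ‖x - a‖ ^ 2 + ε ^ 2) 0 := by fun_prop
    have cΓ : ContinuousAt (fun ε : ℝ => Γ R ε (‖x - a‖ ^ 2)) 0 := by
      unfold Γ
      exact continuousAt_const.div h1 h0
    have cΓ' : ContinuousAt (fun ε : ℝ => Γ' R ε (‖x - a‖ ^ 2)) 0 := by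
      unfold Γ'
      exact (continuousAt_const.div h1 h0).sub (continuousAt_const.div (h1.pow 2) (pow_ne_zero 2 h0))
    have cK : ContinuousAt (fun ε : ℝ => K R ε (‖x - a‖ ^ 2)) 0 := by
      unfold K
      exact continuousAt_const.div (h1.pow 2) (pow_ne_zero 2 h0)
    have cK' : ContinuousAt (fun ε : ℝ => K' R ε (‖x - a‖ ^ 2)) 0 := by
      unfold K'
      exact (continuousAt_const.div (h1.pow 2) (pow_ne_zero 2 h0)).sub
        (continuousAt_const.div (h1.pow 3) (pow_ne_zero 3 h0))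
    unfold Fe Dq
    fun_prop
  exact hc.tendsto.comp tendsto_one_div_add_atTop_nhds_zero_nat

/-- **The identity with the singular weights.** -/
theorem int_F0 (h : IsTest Ω φ) (a : E3) {q R : ℝ} (hq : 0 ≤ q) (hq2 : q ≤ 2) (hR : 0 < R) :
    Integrable (Fe φ a q R 0) ∧ ∫ x, Fe φ a q R 0 x = 0 := by
  obtain ⟨C, hC, hb⟩ := Fe_bound h a hq hq2 hR
  have hne : ∀ᵐ x : E3, x ≠ a := by simp [ae_iff, measure_singleton]
  have hI := dom_int a hR C
  refine ⟨hI.mono' (Fe_meas h a q R 0).aestronglyMeasurable (hne.mono fun x hx => hb 0 x hx), ?_⟩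
  have h1 := tendsto_integral_of_dominated_convergence _
    (fun n : ℕ => (Fe_meas h a q R (1 / ((n : ℝ) + 1))).aestronglyMeasurable (μ := volume)) hI
    (fun n => hne.mono fun x hx => hb _ x hx) (hne.mono fun x hx => Fe_lim (φ := φ) a q R hx)
  have h2 : (fun n : ℕ => ∫ x, Fe φ a q R (1 / ((n : ℝ) + 1)) x) = fun _ => 0 := by
    funext n
    exact int_Fe h a q (by positivity)
  rw [h2] at h1
  exact tendsto_nhds_unique h1 tendsto_const_nhds

end Pool.Agent.Q176.SH
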