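import Pool.Agent.W795.ES.PubDef

/-!
Public definitions: bounds for the strain and for the velocity by sharp Hardy weights for
divergence free fields.
-/

set_option autoImplicit false

open MeasureTheory Set
open scoped InnerProductSpace

namespace Pool.Agent.Q176.SH

open H772R2.NS.Pub
open Pool.Agent.W795.ES (outer)

/-- The Hardy weight: `((17/36 - q) |w_t|² + (1/4 + 9q/8) |w_r|²) / |y|²`, where `w_r` is the
orthogonal projection of `w` to the line of `y` and `w_t = w - w_r`. For `q = 16/153` this is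
`(25/68) |w|² / |y|²`. -/
noncomputable def weight (q : ℝ) (y w : R3) : ℝ :=
  ((17 / 36 - q) * (‖y‖ ^ 2 * ‖w‖ ^ 2 - ⟪y, w⟫_ℝ ^ 2) + (1 / 4 + 9 / 8 * q) * ⟪y, w⟫_ℝ ^ 2)
    / ‖y‖ ^ 4

/-- The sum of the weights `weight q (x - a) w` over the points `a` of the finite set `P` with
`|x - a| < R`. -/
noncomputable def wells (q R : ℝ) (P : Finset R3) (x w : R3) : ℝ :=
  ∑ a ∈ P, if ‖x - a‖ < R then weight q (x - a) w else 0

/-- The strain of the velocity with gradient `G` is not much below `-κ ν` times the Hardy weights: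
for some `q ∈ [0,2]`, `R > 0`, `B ≥ 0` with `B + 12 κ ν / R² ≤ β` and some finite set `P` of points
at distances at least `2R`, `w·∇u(x)w ≥ -κ ν wells(x,w) - B |w|²` for almost all `x ∈ Ω` and
all `w`. -/
def StrainBound {Ω : Set R3} (κ ν β : ℝ) (G : L2 Ω Mat) : Prop :=
  ∃ (q R B : ℝ) (P : Finset R3), q ∈ Icc 0 2 ∧ 0 < R ∧ 0 ≤ B ∧ B + 12 * κ * ν / R ^ 2 ≤ β ∧
    (∀ a ∈ P, ∀ b ∈ P, a ≠ b → 2 * R ≤ ‖a - b‖) ∧
    ∀ᵐ x ∂(volume.restrict Ω), ∀ w : R3,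
      -(κ * ν * wells q R P x w) - B * ‖w‖ ^ 2 ≤ ⟪G.fn x, outer w⟫_ℝ

/-- The velocity `u`, up to a rigid motion `Y(x) = m + S x` (`S` skew), is bounded by the Hardy
weights: for some `q ∈ [0,2]`, `R > 0`, `B ≥ 0` with `B + 12 κ ν / R² ≤ 2 β` and some finite set
`P` of points at distances at least `2R`, `|(u(x) - Y(x)) × w|² ≤ κ ν² wells(x,w) + ν B |w|²` for
almost all `x ∈ Ω` and all `w`. -/
def VelocityBound {Ω : Set R3} (κ ν β : ℝ) (u : L2 Ω R3) : Prop :=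
  ∃ (q R B : ℝ) (P : Finset R3) (m : R3) (S : R3 →L[ℝ] R3), q ∈ Icc 0 2 ∧ 0 < R ∧ 0 ≤ B ∧
    B + 12 * κ * ν / R ^ 2 ≤ 2 * β ∧
    (∀ a ∈ P, ∀ b ∈ P, a ≠ b → 2 * R ≤ ‖a - b‖) ∧ (∀ w, ⟪w, S w⟫_ℝ = 0) ∧
    ∀ᵐ x ∂(volume.restrict Ω), ∀ w : R3,
      ‖u.fn x - (m + S x)‖ ^ 2 * ‖w‖ ^ 2 - ⟪u.fn x - (m + S x), w⟫_ℝ ^ 2
        ≤ κ * ν ^ 2 * wells q R P x w + ν * B * ‖w‖ ^ 2

end Pool.Agent.Q176.SH
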