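import Pool.Agent.Q176.SH.Form
import Pool.Agent.Q176.SH.PubDef
import Pool.Agent.TH340.FF.LH3

/-!
Application to Leray-Hopf solutions in bounded domains.
-/

set_option autoImplicit false

open MeasureTheory Set Filter Topology
open scoped InnerProductSpace ENNReal ContDiff

namespace Pool.Agent.Q176.SH

open H772R2.NS.Pub Pool.Agent.W795.TQ
open Pool.Agent.W795.ES (stretch outer)

theorem wells_eq (q R : ℝ) (P : Finset H772R2.NS.E3) (x w : H772R2.NS.E3) :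
    wells q R (show Finset R3 from P) (show R3 from x) (show R3 from w) = hwS q R P x w := by
  rw [← wellsE_eq]
  rfl

theorem tens_eq (w : H772R2.NS.E3) :
    (outer (show R3 from w) : H772R2.NS.M3) = H772R2.NS.tens w := by
  refine PiLp.ext fun r => ?_
  show ⟪(H772R2.NS.Pub.e r.1 : H772R2.NS.E3), w⟫_ℝ
    * ⟪(H772R2.NS.Pub.e r.2 : H772R2.NS.E3), w⟫_ℝ = _
  rw [inner_e, inner_e]
  rfl

theorem pub_strain {Ω : Set R3} (hΩ : IsOpen Ω) {κ ν β : ℝ}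
    (hκ : 0 ≤ κ) (hν : 0 < ν) {G : L2 Ω Mat}
    (hs : StrainBound κ ν β G) {p : L2 Ω R3 × L2 Ω Mat} (hp : p ∈ H1graph Ω) :
    -stretch G p.1 ≤ κ * ν * ‖p.2‖ ^ 2 + β * ‖p.1‖ ^ 2 := by
  have hm : MeasurableSet (show Set H772R2.NS.E3 from Ω) :=
    IsOpen.measurableSet (α := H772R2.NS.E3) hΩ
  rw [Pool.Agent.TH340.FF.stretch_tens hm G hp]
  obtain ⟨q, R, B, P, hq, hR, hB, hle, hP, hG⟩ := hs
  have hP' : ∀ a ∈ (P : Finset H772R2.NS.E3), ∀ b ∈ (P : Finset H772R2.NS.E3), a ≠ b →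
      2 * R ≤ dist a b := by
    intro a ha b hb hab
    rw [dist_eq_norm]
    exact hP a ha b hb hab
  have h1 := form_strain (Ω := (show Set H772R2.NS.E3 from Ω)) hm (κ := κ * ν) (B := B)
    (by positivity) hq.1 hq.2 hR hP' (G := G) (by
      filter_upwards [hG] with x hx w
      have h0 := hx w
      have h1 := wells_eq q R (show Finset H772R2.NS.E3 from P) (show H772R2.NS.E3 from x) w
      rw [← h1, ← tens_eq]
      exact h0) (mem_pub.mpr hp)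
  refine h1.trans ?_
  have h2 : B + 12 * (κ * ν) / R ^ 2 ≤ β := by
    rw [← mul_assoc]
    exact hle
  have h3 : 0 ≤ ‖p.1‖ ^ 2 := by positivity
  have h4 := mul_le_mul_of_nonneg_right h2 h3
  have h5 : κ * ν * ‖p.2‖ ^ 2 + (B + 12 * (κ * ν) / R ^ 2) * ‖p.1‖ ^ 2
      ≤ κ * ν * ‖p.2‖ ^ 2 + β * ‖p.1‖ ^ 2 := by linarith
  exact h5

theorem pub_velocity {Ω : Set R3} (hΩ : IsOpen Ω) (hb : Bornology.IsBounded Ω) {κ ν β : ℝ}
    (hκ : 0 ≤ κ) (hν : 0 < ν) {U : L2 Ω R3} {G : L2 Ω Mat} (hU : (U, G) ∈ H1graph Ω)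
    (hs : VelocityBound κ ν β U) {p : L2 Ω R3 × L2 Ω Mat} (hp : p ∈ H1graph Ω) :
    -stretch G p.1 ≤ (1 + κ) / 2 * ν * ‖p.2‖ ^ 2 + β * ‖p.1‖ ^ 2 := by
  have hm : MeasurableSet (show Set H772R2.NS.E3 from Ω) :=
    IsOpen.measurableSet (α := H772R2.NS.E3) hΩ
  rw [Pool.Agent.TH340.FF.stretch_tens hm G hp]
  obtain ⟨q, R, B, P, m, S, hq, hR, hB, hle, hP, hS, hV⟩ := hs
  have hP' : ∀ a ∈ (P : Finset H772R2.NS.E3), ∀ b ∈ (P : Finset H772R2.NS.E3), a ≠ b →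
      2 * R ≤ dist a b := by
    intro a ha b hb hab
    rw [dist_eq_norm]
    exact hP a ha b hb hab
  have h1 := form_speed (Ω := (show Set H772R2.NS.E3 from Ω)) hm hb (κ := κ) (B := B)
    hκ hν hq.1 hq.2 hR hP' m (S := S) hS (U := U) (G := G) (mem_pub.mpr hU) (by
      filter_upwards [hV] with x hx w
      have h0 := hx w
      have h1 := wells_eq q R (show Finset H772R2.NS.E3 from P) (show H772R2.NS.E3 from x) w
      rw [← h1]
      exact h0) (mem_pub.mpr hp)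
  refine h1.trans ?_
  have h2 : (B + 12 * κ * ν / R ^ 2) / 2 ≤ β := by linarith
  have h3 : 0 ≤ ‖p.1‖ ^ 2 := by positivity
  have h4 := mul_le_mul_of_nonneg_right h2 h3
  have h5 : (1 + κ) / 2 * ν * ‖p.2‖ ^ 2 + (B + 12 * κ * ν / R ^ 2) / 2 * ‖p.1‖ ^ 2
      ≤ (1 + κ) / 2 * ν * ‖p.2‖ ^ 2 + β * ‖p.1‖ ^ 2 := by linarith
  exact h5

/-- the form inequality from the hypotheses -/
theorem pub_form {Ω : Set R3} (hΩ : IsOpen Ω) (hb : Bornology.IsBounded Ω) {κ ν β : ℝ}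
    (hκ : 0 ≤ κ) (hκ1 : κ ≤ 1) (hν : 0 < ν) {U : L2 Ω R3} {G : L2 Ω Mat} (hU : (U, G) ∈ H1graph Ω)
    (hs : StrainBound κ ν β G ∨ VelocityBound κ ν β U) {p : L2 Ω R3 × L2 Ω Mat}
    (hp : p ∈ H1graph Ω) :
    -stretch G p.1 ≤ (1 + κ) / 2 * ν * ‖p.2‖ ^ 2 + β * ‖p.1‖ ^ 2 := by
  rcases hs with hs | hs
  · refine (pub_strain hΩ hκ hν hs hp).trans ?_
    have h1 : κ * ν * ‖p.2‖ ^ 2 ≤ (1 + κ) / 2 * ν * ‖p.2‖ ^ 2 := by
      have : κ ≤ (1 + κ) / 2 := by linarith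
      gcongr
    linarith
  · exact pub_velocity hΩ hb hκ hν hU hs hp

theorem main (Ω : Set R3) (hΩ : IsOpen Ω) (hb : Bornology.IsBounded Ω) (ν T : ℝ) (hν : 0 < ν)
    (hT : 0 < T) (F F' : ℝ → L2 Ω Mat) (hF : IsH1 T F F')
    (u : ℝ → L2 Ω R3) (G : ℝ → L2 Ω Mat) (L : IsLerayHopf Ω ν T F u G)
    (z0 : L2 Ω Mat) (h0 : (u 0, z0) ∈ H1graph Ω)
    (hg : ∃ g : L2 Ω R3, ∀ φ, IsTest Ω φ → rhs ν (u 0) z0 (F 0) φ = ∫ x in Ω, ⟪g.fn x, φ x⟫_ℝ) :
    (∃ u' G1 G', IsStrong Ω ν T F u u' G1 G') ∨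
    ∃ τ ∈ Ioc 0 T, (∀ t ∈ Ioo 0 τ, ∃ u' G1 G', IsStrong Ω ν t F u u' G1 G') ∧
      ∀ κ : ℝ, 0 ≤ κ → κ < 1 → ∀ s ∈ Ico 0 τ, ∃ M : ℝ, ∀ β : ℝ → ℝ,
        (∀ t, 0 ≤ β t) → (∀ t ∈ Ioo s τ, IntervalIntegrable β volume s t) →
        (∀ᵐ t ∂(volume.restrict (Ioo s τ)),
          StrainBound κ ν (β t) (G t) ∨ VelocityBound κ ν (β t) (u t)) →
        ∀ t0 < τ, ∃ t ∈ Ioo t0 τ, s < t ∧
          3 / 4 * Real.log (1 / (τ - t)) - M ≤ ∫ r in s..t, β r := by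
  rcases Pool.Agent.Results.MP_fd8964_an.EnergyStability.result Ω hΩ hb ν T hν hT F F' hF u G L
    z0 h0 hg with h1 | ⟨τ, hτ, h1, h2⟩
  · exact Or.inl h1
  refine Or.inr ⟨τ, hτ, h1, fun κ hκ hκ1 s hs => ?_⟩
  set δ := (1 - κ) / 2 with hδ
  have hδ0 : 0 < δ := by rw [hδ]; linarith
  have hm : MeasurableSet (show Set H772R2.NS.E3 from Ω) :=
    IsOpen.measurableSet (α := H772R2.NS.E3) hΩ
  have hgT : ∀ᵐ t ∂(volume.restrict (Ioc 0 τ)), (u t, G t) ∈ H1graph Ω := by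
    have := L.grad
    exact ae_mono (Measure.restrict_mono (Ioc_subset_Ioc_right hτ.2) le_rfl) this
  -- the bound before the time `s`
  obtain ⟨Cs, hCs0, hCs⟩ : ∃ C : ℝ, 0 ≤ C ∧ ∀ᵐ t ∂(volume.restrict (Ioc 0 s)), ∀ p ∈ H1graph Ω,
      -stretch (G t) p.1 ≤ (1 - δ) * ν * ‖p.2‖ ^ 2 + C * ‖p.1‖ ^ 2 := by
    rcases eq_or_lt_of_le hs.1 with h3 | h3
    · refine ⟨0, le_rfl, ?_⟩
      rw [← h3]
      simp
    · obtain ⟨u', G1, G', hst⟩ := h1 s ⟨h3, hs.2⟩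
      obtain ⟨M₁, hM₁⟩ := Pool.Agent.TH340.FF.grad_bdd hΩ hst
        (ae_mono (Measure.restrict_mono (Ioc_subset_Ioc_right hs.2.le) le_rfl) hgT)
      obtain ⟨C, hC, hC2⟩ := Pool.Agent.TH340.FF.grad_form
        (Ω := (show Set H772R2.NS.E3 from Ω)) hm (M := M₁)
        (ε := (1 - δ) * ν) (by
          have : 0 < 1 - δ := by rw [hδ]; linarith
          positivity)
      refine ⟨C, hC, ?_⟩
      filter_upwards [hM₁] with t ht p hp
      rw [Pool.Agent.TH340.FF.stretch_tens hm (G t) hp]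
      exact hC2 (G t) ht p (mem_pub.mpr hp)
  obtain ⟨Mc, hMc⟩ := h2 0 (fun j => j.elim0) (fun j => j.elim0) δ hδ0 s hs
  refine ⟨Mc, fun β hβ0 hβi hyp t0 ht0 => ?_⟩
  set Λ : ℝ → ℝ := fun t => if t ≤ s then Cs else β t with hΛ
  have hΛ0 : ∀ t, 0 ≤ Λ t := fun t => by
    simp only [hΛ]
    split_ifs
    · exact hCs0
    · exact hβ0 t
  have hΛs : ∀ t, s ≤ t → EqOn β Λ (Ioc s t) := fun t _ r hr => by
    simp only [hΛ]
    rw [if_neg (not_le.2 hr.1)]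
  have hΛi : ∀ t ∈ Ioo 0 τ, IntervalIntegrable Λ volume 0 t := by
    intro t ht
    have i1 : ∀ a b, a ≤ b → b ≤ s → IntervalIntegrable Λ volume a b := fun a b hab hb => by
      have : IntervalIntegrable (fun _ : ℝ => Cs) volume a b := intervalIntegrable_const
      refine this.congr fun r hr => ?_
      rw [uIoc_of_le hab] at hr
      simp only [hΛ]
      rw [if_pos (hr.2.trans hb)]
    rcases le_or_gt t s with h3 | h3
    · exact i1 0 t ht.1.le h3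
    · refine (i1 0 s hs.1 le_rfl).trans ?_
      refine (hβi t ⟨h3, ht.2⟩).congr fun r hr => ?_
      rw [uIoc_of_le h3.le] at hr
      exact hΛs t h3.le hr
  obtain ⟨t, ht, hst, hlog⟩ := hMc Λ hΛ0 hΛi (by
    have a1 : ∀ᵐ t ∂(volume : Measure ℝ), t ∈ Ioc 0 s → ∀ p ∈ H1graph Ω,
        -stretch (G t) p.1 ≤ (1 - δ) * ν * ‖p.2‖ ^ 2 + Cs * ‖p.1‖ ^ 2 :=
      (ae_restrict_iff' measurableSet_Ioc).1 hCs
    have a2 : ∀ᵐ t ∂(volume : Measure ℝ), t ∈ Ioo s τ →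
        StrainBound κ ν (β t) (G t) ∨ VelocityBound κ ν (β t) (u t) :=
      (ae_restrict_iff' measurableSet_Ioo).1 hyp
    have a3 : ∀ᵐ t ∂(volume : Measure ℝ), t ≠ τ := by simp [ae_iff, measure_singleton]
    have a4 : ∀ᵐ t ∂(volume : Measure ℝ), t ∈ Ioc 0 τ → (u t, G t) ∈ H1graph Ω :=
      (ae_restrict_iff' measurableSet_Ioc).1 hgT
    rw [ae_restrict_iff' measurableSet_Ioc]
    filter_upwards [a1, a2, a3, a4] with t b1 b2 b3 b4 ht p hp _
    by_cases hts : t ≤ s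
    · have e1 : Λ t = Cs := by simp only [hΛ]; rw [if_pos hts]
      rw [e1]
      exact b1 ⟨ht.1, hts⟩ p hp
    · have e1 : Λ t = β t := by simp only [hΛ]; rw [if_neg hts]
      rw [e1]
      have h4 := pub_form hΩ hb hκ hκ1.le hν (b4 ht)
        (b2 ⟨not_le.1 hts, lt_of_le_of_ne ht.2 b3⟩) hp
      have h5 : (1 + κ) / 2 = 1 - δ := by rw [hδ]; ring
      rw [h5] at h4
      exact h4) t0 ht0
  refine ⟨t, ht, hst, ?_⟩
  have e2 : ∫ r in s..t, Λ r = ∫ r in s..t, β r := by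
    refine intervalIntegral.integral_congr_ae ?_
    refine Eventually.of_forall fun r hr => ?_
    rw [uIoc_of_le hst.le] at hr
    exact (hΛs t hst.le hr).symm
  rw [e2] at hlog
  exact hlog

theorem explicit {Ω : Set R3} {ν τ κ : ℝ} (hτ : 0 < τ)
    {u : ℝ → L2 Ω R3} {G : ℝ → L2 Ω Mat}
    (H : ∀ s ∈ Ico 0 τ, ∃ M : ℝ, ∀ β : ℝ → ℝ,
        (∀ t, 0 ≤ β t) → (∀ t ∈ Ioo s τ, IntervalIntegrable β volume s t) →
        (∀ᵐ t ∂(volume.restrict (Ioo s τ)),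
          StrainBound κ ν (β t) (G t) ∨ VelocityBound κ ν (β t) (u t)) →
        ∀ t0 < τ, ∃ t ∈ Ioo t0 τ, s < t ∧
          3 / 4 * Real.log (1 / (τ - t)) - M ≤ ∫ r in s..t, β r)
    {γ t1 : ℝ} (hγ0 : 0 ≤ γ) (hbk : γ < 3 / 4) (ht1 : t1 < τ)
    (hyp : ∀ᵐ t ∂(volume.restrict (Ioo t1 τ)),
      StrainBound κ ν (γ / (τ - t)) (G t) ∨ VelocityBound κ ν (γ / (τ - t)) (u t)) : False := by
  set s := max t1 0 with hs
  have hsτ : s < τ := max_lt ht1 hτ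
  have hs0 : 0 ≤ s := le_max_right _ _
  obtain ⟨M, hM⟩ := H s ⟨hs0, hsτ⟩
  set β : ℝ → ℝ := fun t => γ / |τ - t| with hβ
  have hβc : ∀ t ∈ Ioo s τ, ContinuousOn β (uIcc s t) := by
    intro t ht
    rw [uIcc_of_le ht.1.le]
    refine continuousOn_const.div (continuous_const.sub continuous_id).abs.continuousOn
      fun r hr => ?_
    have : 0 < τ - r := by linarith [hr.2, ht.2]
    exact abs_ne_zero.2 this.ne'
  have h1 := hM β (fun t => by simp only [hβ]; positivity)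
    (fun t ht => (hβc t ht).intervalIntegrable) (by
      have h2 : ∀ᵐ t ∂(volume.restrict (Ioo s τ)),
          StrainBound κ ν (γ / (τ - t)) (G t) ∨ VelocityBound κ ν (γ / (τ - t)) (u t) :=
        ae_mono (Measure.restrict_mono (Ioo_subset_Ioo_left (le_max_left _ _)) le_rfl) hyp
      filter_upwards [h2, ae_restrict_mem measurableSet_Ioo] with t ht htI
      have hp : 0 < τ - t := by linarith [htI.2]
      simp only [hβ]
      rw [abs_of_pos hp]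
      exact ht)
  -- the integral of `β`
  have hint : ∀ t ∈ Ioo s τ, ∫ r in s..t, β r
      = γ * (Real.log (1 / (τ - t)) - Real.log (1 / (τ - s))) := by
    intro t ht
    have hder : ∀ r ∈ uIcc s t, HasDerivAt (fun r => γ * Real.log (1 / (τ - r))) (β r) r := by
      intro r hr
      rw [uIcc_of_le ht.1.le] at hr
      have hp : 0 < τ - r := by linarith [hr.2, ht.2]
      have e1 : (fun r => γ * Real.log (1 / (τ - r))) = fun r => γ * -Real.log (τ - r) := by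
        funext r
        rw [one_div, Real.log_inv]
      rw [e1]
      refine (((((hasDerivAt_id r).const_sub τ).log hp.ne').neg).const_mul γ).congr_deriv ?_
      simp only [hβ]
      rw [abs_of_pos hp]
      simp only [id]
      ring
    rw [intervalIntegral.integral_eq_sub_of_hasDerivAt hder (hβc t ht).intervalIntegrable]
    ring
  -- a time at which the logarithm is large
  set A := (|M| + γ * |Real.log (1 / (τ - s))| + 1) / (3 / 4 - γ) with hA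
  have hgp : 0 < 3 / 4 - γ := by linarith
  obtain ⟨t, ht, hst, hle⟩ := h1 (τ - Real.exp (-A)) (by linarith [Real.exp_pos (-A)])
  rw [hint t ⟨hst, ht.2⟩] at hle
  have hp : 0 < τ - t := by linarith [ht.2]
  have h3 : A < Real.log (1 / (τ - t)) := by
    rw [one_div, Real.log_inv, lt_neg, Real.log_lt_iff_lt_exp hp]
    linarith [ht.1]
  have h4 : (3 / 4 - γ) * A = |M| + γ * |Real.log (1 / (τ - s))| + 1 := by
    rw [hA, mul_comm, div_mul_cancel₀ _ hgp.ne']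
  have h5 : (3 / 4 - γ) * A < (3 / 4 - γ) * Real.log (1 / (τ - t)) :=
    mul_lt_mul_of_pos_left h3 hgp
  have h6 := le_abs_self M
  have h7 : -(γ * Real.log (1 / (τ - s))) ≤ γ * |Real.log (1 / (τ - s))| := by
    rw [← mul_neg]
    exact mul_le_mul_of_nonneg_left (neg_le_abs _) hγ0
  nlinarith

end Pool.Agent.Q176.SH
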