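import Pool.Agent.Q176.SH.Lim

/-!
The localised Hardy-Leray inequality for divergence free fields, with several poles.
-/

set_option autoImplicit false

open MeasureTheory Set Filter Topology
open scoped InnerProductSpace ContDiff

namespace Pool.Agent.Q176.SH

open H772R2.NS Pool.Agent.TH340.FF

/-- the Hardy weight of the vector `v` at the displacement `y` -/
noncomputable def hw (q : ℝ) (y v : E3) : ℝ :=
  ((17 / 36 - q) * (‖y‖ ^ 2 * ‖v‖ ^ 2 - ⟪y, v⟫_ℝ ^ 2) + (1 / 4 + 9 / 8 * q) * ⟪y, v⟫_ℝ ^ 2)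
    / ‖y‖ ^ 4

theorem inner_fderiv (φ : E3 → E3) (x v y : E3) :
    ⟪v, fderiv ℝ φ x y⟫_ℝ = bl (fun i => v i) (fun i j => jac φ x (i, j)) (fun i => y i) := by
  have h3 : y = ∑ j, y j • ev j := by
    refine PiLp.ext fun l => ?_
    simp [ev, Pi.single_apply, Finset.sum_apply]
  conv_lhs => rw [h3]
  rw [inner_E3]
  unfold bl
  refine Finset.sum_congr rfl fun i _ => ?_
  rw [map_sum]
  have h4 : (∑ j, fderiv ℝ φ x (y j • ev j)) i = ∑ j, (fderiv ℝ φ x (y j • ev j)) i := by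
    simp
  rw [h4, Finset.mul_sum]
  refine Finset.sum_congr rfl fun j _ => ?_
  rw [map_smul]
  show v i * (y j * (fderiv ℝ φ x (ev j)) i) = v i * jac φ x (i, j) * y j
  rw [jac_apply]
  ring

variable {φ : E3 → E3} {Ω : Set E3}

theorem dt_self (v : E3) : dt (fun i => v i) (fun i => v i) = ‖v‖ ^ 2 := by
  rw [← real_inner_self_eq_norm_sq, inner_E3]
  rfl

/-- The pointwise inequality in one ball. -/
theorem ball_ineq (h : IsTest Ω φ) {a : E3} {q R : ℝ} (hq : 0 ≤ q) (hq2 : q ≤ 2) (hR : 0 < R)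
    {x : E3} (hxa : x ≠ a) (hx : x ∈ Metric.ball a R) :
    hw q (x - a) (φ x) ≤ (∑ i, ∑ j, jac φ x (i, j) ^ 2)
      + (1 - q) * (∑ i, ∑ j, jac φ x (i, j) * jac φ x (j, i)) + Fe φ a q R 0 x
      + 12 / R ^ 2 * ‖φ x‖ ^ 2 := by
  set y := x - a with hy
  have hy0 : 0 < ‖y‖ := norm_pos_iff.2 (sub_ne_zero.2 hxa)
  have hyR : ‖y‖ < R := by rwa [Metric.mem_ball, dist_eq_norm] at hx
  set ρ := ‖y‖ ^ 2 with hρ
  have hρ0 : 0 < ρ := by positivity
  set z := 1 / ρ with hz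
  have hz0 : 0 < z := by positivity
  have hzρ : z * ρ = 1 := by rw [hz]; field_simp
  set N := ‖φ x‖ ^ 2 with hN
  set β := ⟪y, φ x⟫_ℝ with hβ
  set l1 := ⟪φ x, fderiv ℝ φ x y⟫_ℝ with hl1
  set l2 := ⟪y, fderiv ℝ φ x (φ x)⟫_ℝ with hl2
  set l3 := ⟪y, fderiv ℝ φ x y⟫_ℝ with hl3
  set A : Fin 3 → Fin 3 → ℝ := fun i j => jac φ x (i, j) with hA
  set v : Fin 3 → ℝ := fun i => φ x i with hv
  set X : Fin 3 → ℝ := fun i => z * y i with hX
  have eyy : dt (fun i => y i) (fun i => y i) = ρ := dt_self y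
  have eXX : dt X X = z := by
    have : dt X X = z ^ 2 * dt (fun i => y i) (fun i => y i) := by
      simp only [dt, hX, Finset.mul_sum]
      exact Finset.sum_congr rfl fun i _ => by ring
    rw [this, eyy]
    calc z ^ 2 * ρ = z * (z * ρ) := by ring
      _ = z := by rw [hzρ, mul_one]
  have evv : dt v v = N := dt_self (φ x)
  have eβ : dt X v = β * dt X X := by
    rw [eXX]
    have : β = ∑ i, y i * φ x i := inner_E3 _ _
    rw [this, Finset.sum_mul]
    exact Finset.sum_congr rfl fun i _ => by simp only [hX, hv]; ring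
  have e1 : bl v A X = z * l1 := by
    rw [hl1, inner_fderiv]
    simp only [bl, hX, Finset.mul_sum]
    exact Finset.sum_congr rfl fun i _ => Finset.sum_congr rfl fun j _ => by ring
  have e2 : bl X A v = z * l2 := by
    rw [hl2, inner_fderiv]
    simp only [bl, hX, Finset.mul_sum]
    exact Finset.sum_congr rfl fun i _ => Finset.sum_congr rfl fun j _ => by ring
  have e3 : bl X A X = z ^ 2 * l3 := by
    rw [hl3, inner_fderiv]
    simp only [bl, hX, Finset.mul_sum]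
    exact Finset.sum_congr rfl fun i _ => Finset.sum_congr rfl fun j _ => by ring
  set s := ρ / R ^ 2 with hs
  have hs0 : 0 ≤ s := by positivity
  have hs1 : s ≤ 1 := by
    rw [hs, div_le_one (by positivity), hρ]
    gcongr
  set m := mm s with hm
  have hm0 : 0 ≤ m := mm_nonneg _
  have hm1 : m ≤ 1 := mm_le hs0
  have hms : m = 1 - s := mm_eq hs1
  have htr : ∑ i, A i i = 0 := h.divfree x
  have hpw := pointwise A v X β (q := q) (η := m ^ 2) hq hq2 (by positivity)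
    (pow_le_one₀ hm0 hm1) htr eβ
  rw [e1, e2, e3, evv, eXX] at hpw
  -- Cauchy-Schwarz
  have hcs : β ^ 2 ≤ ρ * N := by
    have := abs_real_inner_le_norm y (φ x)
    calc β ^ 2 = |β| ^ 2 := (sq_abs _).symm
      _ ≤ (‖y‖ * ‖φ x‖) ^ 2 := by gcongr
      _ = ρ * N := by rw [hρ, hN]; ring
  have hN0 : 0 ≤ N := by positivity
  have hcs2 : (β * z) ^ 2 ≤ N * z := by
    calc (β * z) ^ 2 = β ^ 2 * z ^ 2 := by ring
      _ ≤ ρ * N * z ^ 2 := by gcongr
      _ = N * z * (z * ρ) := by ring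
      _ = N * z := by rw [hzρ, mul_one]
  have hcs3 : β ^ 2 * z ≤ N := by
    calc β ^ 2 * z ≤ ρ * N * z := by gcongr
      _ = N * (z * ρ) := by ring
      _ = N := by rw [hzρ, mul_one]
  have hwc := weight_cut (q := q) (s := s) (vv := N) (XX := z) (α := β) hq hq2 hs0 hs1 hz0.le hN0 hcs2
  rw [← hms] at hwc
  have herr := errorterm (q := q) (η := 0) (m := m) (R := R) (vv := N) (β := β ^ 2 * z) hq hq2 hR hm0 hm1
    hN0 (by positivity) hcs3
  -- the value of `Fe`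
  have hFe : Fe φ a q R 0 x = m ^ 2 * ((1 + 2 * q) / 3 * (z * l1) + (1 - 3 * q) / 3 * (z * l2)
          + 7 * (2 - q) / 6 * β * (z ^ 2 * l3)
        + (1 + 2 * q) / 6 * (N * z)
        + (1 - 3 * q) / 3 * (N * z - 2 * (β * z) ^ 2)
        + 7 * (2 - q) / 12 * (β * z) ^ 2)
      + 2 * (-2 * m) / R ^ 2 * ((1 + 2 * q) / 6 * N
          + ((1 - 3 * q) / 3 + 7 * (2 - q) / 12) * (β ^ 2 * z)) := by
    have h1 := Dq_eq (q := q) (z := z) (w := 1 / R ^ 2) (t := 1) (m := m) (N := N) (ρ := ρ) (β := β)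
      (l1 := l1) (l2 := l2) (l3 := l3) hzρ
    have eg : Γ R 0 ρ = m ^ 2 * 1 * z := by
      unfold Γ
      rw [← hs, ← hm, hz]
      simp only [ne_eq, OfNat.ofNat_ne_zero, not_false_eq_true, zero_pow, add_zero]
      ring
    have eg' : Γ' R 0 ρ = -(2 * m * 1 * (1 / R ^ 2) * z + m ^ 2 * 1 ^ 2 * z ^ 2) := by
      unfold Γ'
      rw [← hs, ← hm, hz]
      simp only [ne_eq, OfNat.ofNat_ne_zero, not_false_eq_true, zero_pow, add_zero]
      ring
    have ek : K R 0 ρ = m ^ 2 * 1 ^ 2 * z ^ 2 := by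
      unfold K
      rw [← hs, ← hm, hz]
      simp only [ne_eq, OfNat.ofNat_ne_zero, not_false_eq_true, zero_pow, add_zero]
      ring
    have ek' : K' R 0 ρ = -(2 * m * 1 ^ 2 * (1 / R ^ 2) * z ^ 2 + 2 * m ^ 2 * 1 ^ 3 * z ^ 3) := by
      unfold K'
      rw [← hs, ← hm, hz]
      simp only [ne_eq, OfNat.ofNat_ne_zero, not_false_eq_true, zero_pow, add_zero]
      ring
    unfold Fe
    rw [← hy, ← hρ, eg, eg', ek, ek', h1]
    ring
  have ehw : hw q y (φ x) = Wq q N z β := by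
    unfold hw Wq
    rw [← hρ, ← hN, ← hβ, show ‖y‖ ^ 4 = ρ ^ 2 by rw [hρ]; ring, hz]
    field_simp
  rw [ehw]
  have e5 : 5 * (s * (N * z)) = 5 / R ^ 2 * N := by
    calc 5 * (s * (N * z)) = 5 / R ^ 2 * N * (z * ρ) := by rw [hs]; ring
      _ = _ := by rw [hzρ, mul_one]
  rw [e5] at hwc
  have e6 : (20 / 3 / R ^ 2 + 5 / R ^ 2) * N ≤ 12 / R ^ 2 * N := by
    have : 0 < R ^ 2 := by positivity
    refine mul_le_mul_of_nonneg_right ?_ hN0
    rw [← add_div]
    gcongr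
    norm_num
  rw [hFe]
  linarith

/-- the sum of the Hardy weights over the poles -/
noncomputable def hwS (q R : ℝ) (P : Finset E3) (x v : E3) : ℝ :=
  ∑ a ∈ P, (Metric.ball a R).indicator (fun x => hw q (x - a) v) x

theorem hwS_ball {R : ℝ} {P : Finset E3} (hP : ∀ a ∈ P, ∀ b ∈ P, a ≠ b → 2 * R ≤ dist a b)
    {a x : E3} (ha : a ∈ P) (hx : x ∈ Metric.ball a R) : ∀ b ∈ P, b ≠ a → x ∉ Metric.ball b R := by
  intro b hb hba hxb
  have h1 := hP a ha b hb hba.symm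
  rw [Metric.mem_ball] at hx hxb
  have h2 := dist_triangle a x b
  rw [dist_comm a x] at h2
  linarith

/-- The pointwise inequality. -/
theorem pt_ineq (h : IsTest Ω φ) {q R : ℝ} (hq : 0 ≤ q) (hq2 : q ≤ 2) (hR : 0 < R)
    {P : Finset E3} (hP : ∀ a ∈ P, ∀ b ∈ P, a ≠ b → 2 * R ≤ dist a b)
    {x : E3} (hxP : x ∉ P) :
    hwS q R P x (φ x) ≤ (∑ i, ∑ j, jac φ x (i, j) ^ 2)
      + (1 - q) * (∑ i, ∑ j, jac φ x (i, j) * jac φ x (j, i)) + (∑ a ∈ P, Fe φ a q R 0 x)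
      + 12 / R ^ 2 * ‖φ x‖ ^ 2 := by
  by_cases hx : ∃ a ∈ P, x ∈ Metric.ball a R
  · obtain ⟨a, ha, hxa⟩ := hx
    have hout := hwS_ball hP ha hxa
    have e1 : hwS q R P x (φ x) = hw q (x - a) (φ x) := by
      unfold hwS
      rw [Finset.sum_eq_single_of_mem a ha fun b hb hba =>
        indicator_of_notMem (hout b hb hba) _]
      exact indicator_of_mem hxa _
    have e2 : ∑ a ∈ P, Fe φ a q R 0 x = Fe φ a q R 0 x :=
      Finset.sum_eq_single_of_mem a ha fun b hb hba => Fe_out b q hR 0 (hout b hb hba)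
    rw [e1, e2]
    exact ball_ineq h hq hq2 hR (fun hc => hxP (hc ▸ ha)) hxa
  · have hx' : ∀ a ∈ P, x ∉ Metric.ball a R := fun a ha hc => hx ⟨a, ha, hc⟩
    have e1 : hwS q R P x (φ x) = 0 :=
      Finset.sum_eq_zero fun a ha => indicator_of_notMem (hx' a ha) _
    have e2 : ∑ a ∈ P, Fe φ a q R 0 x = 0 :=
      Finset.sum_eq_zero fun a ha => Fe_out a q hR 0 (hx' a ha)
    rw [e1, e2]
    have h1 := pointwise0 (fun i j => jac φ x (i, j)) hq hq2
    have h2 : 0 ≤ 12 / R ^ 2 * ‖φ x‖ ^ 2 := by positivity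
    linarith

theorem hw_bound {q : ℝ} (hq : 0 ≤ q) (hq2 : q ≤ 2) (y v : E3) :
    |hw q y v| ≤ 3 * (‖v‖ ^ 2 * ‖y‖ ^ (-2 : ℝ)) := by
  rcases eq_or_lt_of_le (norm_nonneg y) with hy | hy
  · have : y = 0 := norm_eq_zero.1 hy.symm
    subst this
    simp [hw]
  have hrp : ‖y‖ ^ (-2 : ℝ) = 1 / ‖y‖ ^ 2 := by
    rw [Real.rpow_neg hy.le, one_div]
    norm_cast
  rw [hrp]
  have hcs : ⟪y, v⟫_ℝ ^ 2 ≤ ‖y‖ ^ 2 * ‖v‖ ^ 2 := by
    have := abs_real_inner_le_norm y v
    calc ⟪y, v⟫_ℝ ^ 2 = |⟪y, v⟫_ℝ| ^ 2 := (sq_abs _).symm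
      _ ≤ (‖y‖ * ‖v‖) ^ 2 := by gcongr
      _ = _ := by ring
  unfold hw
  rw [abs_div, abs_of_pos (show 0 < ‖y‖ ^ 4 by positivity), div_le_iff₀ (by positivity)]
  have e1 : 3 * (‖v‖ ^ 2 * (1 / ‖y‖ ^ 2)) * ‖y‖ ^ 4 = 3 * (‖y‖ ^ 2 * ‖v‖ ^ 2) := by
    field_simp
  rw [e1]
  set t := ‖y‖ ^ 2 * ‖v‖ ^ 2
  set r := ⟪y, v⟫_ℝ ^ 2
  have hr : 0 ≤ r := sq_nonneg _
  have ht : 0 ≤ t - r := by linarith
  rw [abs_le]
  constructor
  · nlinarith [mul_nonneg hq hr, mul_nonneg hq ht, mul_nonneg (sub_nonneg.2 hq2) hr,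
      mul_nonneg (sub_nonneg.2 hq2) ht]
  · nlinarith [mul_nonneg hq hr, mul_nonneg hq ht, mul_nonneg (sub_nonneg.2 hq2) hr,
      mul_nonneg (sub_nonneg.2 hq2) ht]

theorem hwS_meas (h : IsTest Ω φ) (q R : ℝ) (P : Finset E3) :
    Measurable fun x => hwS q R P x (φ x) := by
  have hc : Measurable φ := h.smooth.continuous.measurable
  unfold hwS
  refine Finset.measurable_sum _ fun a _ => ?_
  have e1 : (fun x => (Metric.ball a R).indicator (fun x' => hw q (x' - a) (φ x)) x)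
      = (Metric.ball a R).indicator (fun x => hw q (x - a) (φ x)) := by
    funext x
    by_cases hx : x ∈ Metric.ball a R
    · rw [indicator_of_mem hx, indicator_of_mem hx]
    · rw [indicator_of_notMem hx, indicator_of_notMem hx]
  rw [e1]
  refine Measurable.indicator ?_ Metric.isOpen_ball.measurableSet
  unfold hw
  fun_prop

theorem hwS_int (h : IsTest Ω φ) {q R : ℝ} (hq : 0 ≤ q) (hq2 : q ≤ 2) (hR : 0 < R)
    (P : Finset E3) : Integrable fun x => hwS q R P x (φ x) := by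
  obtain ⟨M, hM0, hM⟩ := bounded_test h
  have hI : Integrable fun x => ∑ a ∈ P, (Metric.ball a R).indicator
      (fun x : E3 => 3 * M ^ 2 * (1 + ‖x - a‖ ^ (-2 : ℝ))) x :=
    integrable_finsetSum _ fun a _ => dom_int a hR _
  refine hI.mono' (hwS_meas h q R P).aestronglyMeasurable (Eventually.of_forall fun x => ?_)
  unfold hwS
  refine (Finset.abs_sum_le_sum_abs _ _).trans (Finset.sum_le_sum fun a _ => ?_)
  by_cases hx : x ∈ Metric.ball a R
  · rw [indicator_of_mem hx, indicator_of_mem hx]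
    refine (hw_bound hq hq2 _ _).trans ?_
    have h1 : 0 ≤ ‖x - a‖ ^ (-2 : ℝ) := by positivity
    have h2 : ‖φ x‖ ^ 2 ≤ M ^ 2 := by
      have := (hM x).1
      gcongr
    nlinarith [mul_le_mul_of_nonneg_right h2 h1, sq_nonneg M]
  · rw [indicator_of_notMem hx, indicator_of_notMem hx, abs_zero]

theorem int_jj (h : IsTest Ω φ) (i j k l : Fin 3) :
    Integrable fun x => jac φ x (i, j) * jac φ x (k, l) :=
  ((cont_jac_coord h.smooth i j).mul (cont_jac_coord h.smooth k l)).integrable_of_hasCompactSupport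
    (hcs_jac_coord h.smooth h.compact i j).mul_right

theorem int_f1' (h : IsTest Ω φ) : Integrable fun x => ∑ i, ∑ j, jac φ x (i, j) ^ 2 := by
  refine integrable_finsetSum _ fun i _ => integrable_finsetSum _ fun j _ => ?_
  have h1 := int_jj h i j i j
  simp_rw [← pow_two] at h1
  exact h1

theorem int_f2' (h : IsTest Ω φ) :
    Integrable fun x => ∑ i, ∑ j, jac φ x (i, j) * jac φ x (j, i) :=
  integrable_finsetSum _ fun i _ => integrable_finsetSum _ fun j _ => int_jj h i j j i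

theorem int_f4' (h : IsTest Ω φ) : Integrable fun x => ‖φ x‖ ^ 2 := by
  have hc : HasCompactSupport fun x => ‖φ x‖ ^ 2 := by
    refine h.compact.mono fun x hx h0 => hx ?_
    simp only
    rw [h0, norm_zero]
    norm_num
  have hc2 : Continuous fun x => ‖φ x‖ ^ 2 := h.smooth.continuous.norm.pow 2
  exact hc2.integrable_of_hasCompactSupport hc

theorem ne_P (P : Finset E3) : ∀ᵐ x : E3, x ∉ P := by
  have : (volume : Measure E3) (P : Set E3) = 0 := P.finite_toSet.measure_zero _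
  exact measure_eq_zero_iff_ae_notMem.1 this

theorem sum_int {f0 f1 f2 f3 f4 : E3 → ℝ} {c d : ℝ} (i0 : Integrable f0) (i1 : Integrable f1)
    (i2 : Integrable f2) (i3 : Integrable f3) (i4 : Integrable f4)
    (h : ∀ᵐ x, f0 x ≤ f1 x + c * f2 x + f3 x + d * f4 x) (e2 : ∫ x, f2 x = 0) (e3 : ∫ x, f3 x = 0) :
    ∫ x, f0 x ≤ (∫ x, f1 x) + d * ∫ x, f4 x := by
  have i2' : Integrable fun x => c * f2 x := i2.const_mul _
  have i4' : Integrable fun x => d * f4 x := i4.const_mul _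
  have i12 : Integrable fun x => f1 x + c * f2 x := i1.add i2'
  have i123 : Integrable fun x => f1 x + c * f2 x + f3 x := i12.add i3
  have i1234 : Integrable fun x => f1 x + c * f2 x + f3 x + d * f4 x := i123.add i4'
  refine (integral_mono_ae i0 i1234 h).trans (le_of_eq ?_)
  rw [integral_add i123 i4', integral_add i12 i3, integral_add i1 i2', integral_const_mul,
    integral_const_mul, e2, e3]
  ring

/-- **The localised Hardy-Leray inequality** for divergence free test fields. -/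
theorem hardy (h : IsTest Ω φ) {q R : ℝ} (hq : 0 ≤ q) (hq2 : q ≤ 2) (hR : 0 < R)
    {P : Finset E3} (hP : ∀ a ∈ P, ∀ b ∈ P, a ≠ b → 2 * R ≤ dist a b) :
    ∫ x, hwS q R P x (φ x) ≤ (∫ x, ∑ i, ∑ j, jac φ x (i, j) ^ 2)
      + 12 / R ^ 2 * ∫ x, ∑ i, φ x i ^ 2 := by
  have e1 : ∫ x, ‖φ x‖ ^ 2 = ∫ x, ∑ i, φ x i ^ 2 := by
    refine integral_congr_ae (Eventually.of_forall fun x => ?_)
    simp only
    rw [← dt_self]
    exact Finset.sum_congr rfl fun i _ => by ring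
  rw [← e1]
  have i3 : Integrable fun x => ∑ a ∈ P, Fe φ a q R 0 x :=
    integrable_finsetSum _ fun a _ => (int_F0 h a hq hq2 hR).1
  refine sum_int (c := 1 - q) (hwS_int h hq hq2 hR P) (int_f1' h) (int_f2' h) i3 (int_f4' h)
    ((ne_P P).mono fun x hx => pt_ineq h hq hq2 hR hP hx)
    (Pool.Agent.TH340.FF.IsTest.cross_zero h) ?_
  rw [integral_finsetSum _ fun a _ => (int_F0 h a hq hq2 hR).1]
  exact Finset.sum_eq_zero fun a _ => (int_F0 h a hq hq2 hR).2

end Pool.Agent.Q176.SH
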